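import Pool.Agent.Q256.MP.Stm

/-!
# Project MP of helper256, job NORM
-/

set_option autoImplicit false

open Height NumberField

noncomputable section

namespace Pool.Agent.Q38.MPN

open Pool.Agent.W276.GE Pool.Agent.Q256.MP

/-- one point -/
theorem norm_one {N D d : ℕ} {X : ℝ} {A : Finset ℂ}
    (hA : ∀ (K : Type) [Field K] [NumberField K], Module.finrank ℚ K ≤ D →
      ∀ x : K, mulHeight₁ x ≤ X → ∀ φ : K →+* ℂ, φ x ∈ A)
    (F : Sy N d) (hF : NoZero F) (z : Fin (N + 1) → ℂ)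
    (hz : Rep (N + 1) D (fun K _ _ P => mulHeight P ≤ X ∧ mulHeight (fm F K P) ≤ X) z) :
    ∃ (b : ℂ) (w : Fin (N + 1) → ℂ), b ≠ 0 ∧ (∀ j, b * z j ∈ A) ∧ (∀ j, w j ∈ A) ∧ w ≠ 0 ∧
      ∃ c : ℂ, ∀ j, ev (F j) (fun j => b * z j) = c * w j := by
  obtain ⟨K, i1, i2, φ, P, hK, hP, ⟨hX1, hX2⟩, rfl⟩ := hz
  obtain ⟨a, ha, hap⟩ := exists_norm φ (fun x hx => hA K hK x hx φ) P hP hX1
  have hQ := image_ne_zero hF φ hP
  obtain ⟨b, hb, hbq⟩ := exists_norm φ (fun x hx => hA K hK x hx φ)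
    (fun i => ev (F i) P) hQ hX2
  refine ⟨φ a, fun i => φ (b * ev (F i) P), ?_, ?_, hbq, ?_, φ (a ^ d * b⁻¹), fun i => ?_⟩
  · simpa using ha
  · intro j
    have := hap j
    rwa [map_mul] at this
  · intro h
    apply hQ
    funext i
    have h1 := congrFun h i
    simp only [Pi.zero_apply, map_eq_zero, mul_eq_zero, hb, false_or] at h1
    exact h1
  · have h0 : (fun j => φ a * φ (P j)) = fun j => φ (a * P j) := by
      funext j
      rw [map_mul]
    dsimp only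
    rw [h0, ← ev_map φ (F i) (fun i => a * P i), ev_smul, ← map_mul]
    congr 1
    field_simp

/-- **JOB NORM.** -/
theorem norm_pts : S_norm := by
  intro N D d m X A hA F hF z hz
  choose b w hb hbz hw hw0 hc using fun i => norm_one hA F hF (z i) (hz i)
  exact ⟨b, w, hb, hbz, hw, hw0, hc⟩

end Pool.Agent.Q38.MPN
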