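import Pool.Agent.Q256.MP.Stm2
import Pool.Agent.Q96.MP_UPF

/-!
# Project MP of helper256, second part, job TOT
-/

set_option autoImplicit false

open Height NumberField Filter Topology
open scoped LinearAlgebra.Projectivization

noncomputable section

namespace Pool.Agent.Q38.MPT

open Pool.Agent.W276.GE Pool.Agent.Q256.MP Pool.Agent.Q96.MP

theorem exists_inj {α : Type*} (s : Set α) (m : ℕ) (h : (m : ℕ∞) ≤ s.encard) :
    ∃ p : Fin m → α, Function.Injective p ∧ ∀ i, p i ∈ s := by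
  obtain ⟨t, hts, ht⟩ := Set.exists_subset_encard_eq h
  have hfin : t.Finite := Set.finite_of_encard_eq_coe ht
  have hcard : hfin.toFinset.card = m := by
    have h1 := hfin.encard_eq_coe_toFinset_card
    rw [ht] at h1
    exact_mod_cast h1.symm
  have e := hfin.toFinset.equivFinOfCardEq hcard
  refine ⟨fun i => (e.symm i : α), fun i j hij => ?_, fun i => ?_⟩
  · exact e.symm.injective (Subtype.ext hij)
  · exact hts (hfin.mem_toFinset.1 (e.symm i).2)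

theorem gr_mono {n d : ℕ} {θ θ' : ℝ} (h : θ ≤ θ') {H : ℕ} (hH : 1 ≤ H) {F : Fin n → E n d → ℤ}
    {K : Type} [Field K] [NumberField K] {P : Fin n → K} (hg : Gr θ' H F K P) : Gr θ H F K P := by
  obtain ⟨k₀, hk⟩ := hg
  refine ⟨k₀, fun k hk' => le_trans ?_ (hk k hk')⟩
  have hH1 : (1 : ℝ) ≤ H := by exact_mod_cast hH
  have hlog : 0 ≤ Real.log H := Real.log_nonneg hH1
  have hfin : (0 : ℝ) ≤ (Module.finrank ℚ K : ℝ) := Nat.cast_nonneg _
  have hd : (0 : ℝ) ≤ (d : ℝ) ^ k := by positivity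
  exact mul_le_mul_of_nonneg_right (mul_le_mul_of_nonneg_right
    (mul_le_mul_of_nonneg_right h hd) hlog) hfin

/-- different small points give a system of vectors -/
theorem many_of_inj {N D d m H : ℕ} {θ θ' : ℝ} (h : θ ≤ θ') (hH : 1 ≤ H) {F : Sy N d}
    {p : Fin m → Pt N} (hp : Function.Injective p) (hs : ∀ i, p i ∈ Sm N D θ H F) :
    Many (N + 1) D m (fun K _ _ P => Pp F K P ∨ ¬ Gr θ' H F K P) := by
  choose z hz0 hz1 hz2 using hs
  refine ⟨z, ⟨hz0, fun i j hij c hc => ?_⟩, fun i => ?_⟩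
  · apply hij
    apply hp
    rw [hz1 i, hz1 j, Projectivization.mk_eq_mk_iff']
    exact ⟨c, hc.symm⟩
  · obtain ⟨K, i1, i2, φ, P, hK, hP, hΦ, hz⟩ := hz2 i
    refine ⟨K, i1, i2, φ, P, hK, hP, ?_, hz⟩
    rcases hΦ with h1 | h1
    · exact Or.inl h1
    · exact Or.inr fun h2 => h1 (gr_mono h hH h2)

/-- the iterates of a small point which is not preperiodic -/
theorem many_iter {N D d m H : ℕ} {θ θ' : ℝ} (hθ' : 0 < θ') (hd : 1 ≤ d)
    (h : θ ≤ θ' / (d : ℝ) ^ m) (hH : 1 ≤ H) {F : Sy N d} (hF : NoZero F) {K : Type} [Field K]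
    [NumberField K] (φ : K →+* ℂ) {P : Fin (N + 1) → K} (hK : Module.finrank ℚ K ≤ D) (hP0 : P ≠ 0)
    (hnp : ¬ Pp F K P) (hng' : ¬ Gr θ H F K P) :
    Many (N + 1) D (m + 1) (fun K _ _ P => Pp F K P ∨ ¬ Gr θ' H F K P) := by
  have hdR : (1 : ℝ) ≤ d := by exact_mod_cast hd
  have hH1 : (1 : ℝ) ≤ H := by exact_mod_cast hH
  have hng : ¬ Gr (θ' / (d : ℝ) ^ m) H F K P := fun h1 => hng' (gr_mono h hH h1)
  refine ⟨fun k => fun j => φ ((fm F K)^[k.1] P j), ⟨?_, ?_⟩, ?_⟩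
  · intro k
    exact emb_ne φ (iter_ne hF hP0 _)
  · intro k l hkl c hc
    have hkl' : k.1 ≠ l.1 := fun h => hkl (Fin.ext h)
    obtain ⟨c', hc', he⟩ := prop_descent φ (iter_ne hF hP0 l.1) (iter_ne hF hP0 k.1) hc
    rcases Nat.lt_or_gt_of_ne hkl' with h | h
    · apply hnp
      refine ⟨k.1, l.1, h, c'⁻¹, inv_ne_zero hc', ?_⟩
      rw [he, smul_smul, inv_mul_cancel₀ hc', one_smul]
    · exact hnp ⟨l.1, k.1, h, c', hc', he⟩
  · intro k
    refine ⟨K, inferInstance, inferInstance, φ, (fm F K)^[k.1] P, hK, iter_ne hF hP0 _, Or.inr ?_, rfl⟩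
    rintro ⟨k₀, hk₀⟩
    apply hng
    refine ⟨k₀ + k.1, fun j hj => ?_⟩
    obtain ⟨t, rfl⟩ : ∃ t, j = t + k.1 := ⟨j - k.1, by omega⟩
    have h3 := hk₀ t (by omega)
    rw [← Function.iterate_add_apply] at h3
    refine le_trans ?_ h3
    have hlog : 0 ≤ Real.log H := Real.log_nonneg hH1
    have hfin : (0 : ℝ) ≤ (Module.finrank ℚ K : ℝ) := Nat.cast_nonneg _
    have h4 : θ' / (d : ℝ) ^ m * (d : ℝ) ^ (t + k.1) ≤ θ' * (d : ℝ) ^ t := by
      rw [div_mul_eq_mul_div, div_le_iff₀ (by positivity), mul_assoc, ← pow_add]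
      apply mul_le_mul_of_nonneg_left _ hθ'.le
      apply pow_le_pow_right₀ hdR
      have := k.2
      omega
    exact mul_le_mul_of_nonneg_right (mul_le_mul_of_nonneg_right h4 hlog) hfin

/-- the image of a point -/
theorem im_mk {N d : ℕ} {F : Sy N d} {K : Type} [Field K] (φ : K →+* ℂ) {P : Fin (N + 1) → K}
    (h1 : (fun i => φ (P i)) ≠ 0) (h2 : (fun i => φ (fm F K P i)) ≠ 0) :
    Im F (Projectivization.mk ℂ _ h1) (Projectivization.mk ℂ _ h2) := by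
  obtain ⟨a, ha⟩ := Projectivization.exists_smul_eq_mk_rep ℂ _ h1
  obtain ⟨b, hb⟩ := Projectivization.exists_smul_eq_mk_rep ℂ _ h2
  refine ⟨(a : ℂ) ^ d * (b : ℂ)⁻¹, fun j => ?_⟩
  rw [← ha, ← hb]
  have e1 : ev (F j) (a • fun i => φ (P i)) = (a : ℂ) ^ d * ev (F j) (fun i => φ (P i)) :=
    ev_smul (a : ℂ) (F j) _
  have e2 : ev (F j) (fun i => φ (P i)) = φ (ev (F j) P) := (ev_map φ (F j) P).symm
  rw [e1, e2]
  show (a : ℂ) ^ d * φ (ev (F j) P) = (a : ℂ) ^ d * (b : ℂ)⁻¹ * ((b : ℂ) * φ (ev (F j) P))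
  have hb0 : (b : ℂ) ≠ 0 := b.ne_zero
  field_simp

theorem por_or {N D d m H : ℕ} {θ θ' : ℝ} (hθ' : 0 < θ') (hd : 1 ≤ d)
    (h : θ ≤ θ' / (d : ℝ) ^ m) (hH : 1 ≤ H) {F : Sy N d} (hF : NoZero F)
    (hm : (m : ℕ∞) ≤ (Sm N D θ H F).encard) :
    Por N D θ (Set.univ : Set (Fin m → Fin m)) H F ∨
      Many (N + 1) D (m + 1) (fun K _ _ P => Pp F K P ∨ ¬ Gr θ' H F K P) := by
  have hdR : (1 : ℝ) ≤ d := by exact_mod_cast hd
  have hle : θ ≤ θ' := h.trans (div_le_self hθ'.le (one_le_pow₀ hdR))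
  obtain ⟨p, hp, hps⟩ := exists_inj _ m hm
  by_cases hr : ∃ x ∈ Sm N D θ H F, ∀ i, p i ≠ x
  · right
    obtain ⟨x, hx, hxp⟩ := hr
    refine many_of_inj (p := Fin.cons x p) hle hH ?_ ?_
    · rw [Fin.cons_injective_iff]
      exact ⟨fun ⟨i, hi⟩ => hxp i hi, hp⟩
    · intro i
      refine Fin.cases ?_ (fun i => ?_) i
      · exact hx
      · exact hps i
  push Not at hr
  by_cases hA : ∃ (K : Type) (_ : Field K) (_ : NumberField K) (_ : K →+* ℂ) (P : Fin (N + 1) → K),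
      Module.finrank ℚ K ≤ D ∧ P ≠ 0 ∧ ¬ Pp F K P ∧ ¬ Gr θ H F K P
  · right
    obtain ⟨K, i1, i2, φ, P, hK, hP, h1, h2⟩ := hA
    exact many_iter hθ' hd h hH hF φ hK hP h1 h2
  push Not at hA
  left
  have hσ : ∀ i, ∃ k, Im F (p i) (p k) := by
    intro i
    obtain ⟨z, hz, hpz, K, i1, i2, φ, P, hK, hP, hPp, rfl⟩ := hps i
    have hpp : Pp F K P := by
      by_contra hn
      rcases hPp with h1 | h1
      · exact hn h1
      · exact h1 (hA K i1 i2 φ P hK hP hn)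
    have h2 : (fun i => φ (fm F K P i)) ≠ 0 := emb_ne φ (fm_ne hF hP)
    obtain ⟨k, hk⟩ := hr (Projectivization.mk ℂ _ h2)
      ⟨_, h2, rfl, K, i1, i2, φ, fm F K P, hK, fm_ne hF hP, Or.inl (pp_image hpp), rfl⟩
    refine ⟨k, ?_⟩
    rw [hpz, hk]
    exact im_mk φ hz h2
  choose σ hσ using hσ
  refine ⟨σ, Set.mem_univ _, p, hp, ?_, hσ⟩
  apply Set.Subset.antisymm
  · intro x hx
    obtain ⟨i, hi⟩ := hr x hx
    exact ⟨i, hi⟩
  · rintro x ⟨i, rfl⟩
    exact hps i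

theorem card_of_por {N D d m H : ℕ} {θ : ℝ} {S : Set (Fin m → Fin m)} {F : Sy N d}
    (h : Por N D θ S H F) : (m : ℕ∞) ≤ (Sm N D θ H F).encard := by
  obtain ⟨σ, -, p, hp, hs, -⟩ := h
  rw [hs, ← Set.image_univ, hp.encard_image, Set.encard_univ]
  simp

theorem choose_ge (N d : ℕ) : d + 1 ≤ (N + 1 + d).choose (N + 1) := by
  induction N with
  | zero => simp [add_comm]
  | succ N ih =>
    have e : N + 1 + 1 + d = (N + 1 + d) + 1 := by ring
    rw [e, Nat.choose_succ_succ]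
    omega

theorem tot (h1 : S_tan) (h2 : S_upf) : S_tot := by
  intro N D m hN hD hm
  obtain ⟨d1, hd1⟩ := h1 N D m hN hD hm
  obtain ⟨d2, hd2⟩ := h2 N D (m + 1) hN hD (by omega)
  refine ⟨max (max d1 d2) (m + 1), fun d hd => ?_⟩
  have hdd1 : d1 ≤ d := (le_max_left _ _).trans ((le_max_left _ _).trans hd)
  have hdd2 : d2 ≤ d := (le_max_right _ _).trans ((le_max_left _ _).trans hd)
  have hdm : m + 1 ≤ d := (le_max_right _ _).trans hd
  obtain ⟨θ1, hθ1, hT⟩ := hd1 d hdd1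
  obtain ⟨C, θ', hC, hθ', hU⟩ := hd2 d hdd2
  have hdR : (1 : ℝ) ≤ d := by exact_mod_cast (by omega : 1 ≤ d)
  refine ⟨min θ1 (θ' / (d : ℝ) ^ m), lt_min hθ1 (by positivity), fun θ hθ0 hθ => ?_⟩
  obtain ⟨v, hv, hlim⟩ := hT θ hθ0 (hθ.trans (min_le_left _ _)) Set.univ ⟨id, Set.mem_univ _⟩
  have hθ2 : θ ≤ θ' / (d : ℝ) ^ m := hθ.trans (min_le_right _ _)
  refine ⟨v, hv, ?_⟩
  have hQ : (m + 1) * N ≤ QQ N d := by
    have hM : d + 1 ≤ Fintype.card (E (N + 1) d) := by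
      rw [card_E]
      obtain ⟨N', rfl⟩ : ∃ N', N = N' + 1 := ⟨N - 1, by omega⟩
      exact choose_ge N' d
    calc (m + 1) * N ≤ (d + 1) * (N + 1) := Nat.mul_le_mul (by omega) (by omega)
      _ ≤ Fintype.card (E (N + 1) d) * (N + 1) := Nat.mul_le_mul_right _ hM
      _ = QQ N d := mul_comm _ _
  have hlow : ∀ H : ℕ, 1 ≤ H →
      cnt N d H (fun F => Por N D θ (Set.univ : Set (Fin m → Fin m)) H F) /
        (H : ℝ) ^ (QQ N d - m * N) ≤
      cnt N d H (fun F => (m : ℕ∞) ≤ (Sm N D θ H F).encard) / (H : ℝ) ^ (QQ N d - m * N) := by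
    intro H hH
    apply div_le_div_of_nonneg_right _ (by positivity)
    exact cnt_mono fun F _ _ h => card_of_por h
  have hup : ∀ H : ℕ, 1 ≤ H →
      cnt N d H (fun F => (m : ℕ∞) ≤ (Sm N D θ H F).encard) / (H : ℝ) ^ (QQ N d - m * N) ≤
      cnt N d H (fun F => Por N D θ (Set.univ : Set (Fin m → Fin m)) H F) /
        (H : ℝ) ^ (QQ N d - m * N) + C / H := by
    intro H hH
    have hHr : (1 : ℝ) ≤ H := by exact_mod_cast hH
    have hH0 : (0 : ℝ) < (H : ℝ) ^ (QQ N d - m * N) := by positivity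
    have e1 : cnt N d H (fun F => (m : ℕ∞) ≤ (Sm N D θ H F).encard) ≤
        cnt N d H (fun F => Por N D θ (Set.univ : Set (Fin m → Fin m)) H F) +
        cnt N d H (fun F => Many (N + 1) D (m + 1) (fun K _ _ P => Pp F K P ∨ ¬ Gr θ' H F K P)) :=
      cnt_or fun F _ hF h => por_or hθ' (by omega) hθ2 hH hF h
    have e2 := hU H hH
    have hpow : (H : ℝ) ^ (QQ N d - (m + 1) * N) * H ≤ (H : ℝ) ^ (QQ N d - m * N) := by
      rw [← pow_succ]
      refine pow_le_pow_right₀ hHr ?_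
      have : (m + 1) * N = m * N + N := by ring
      omega
    rw [div_le_iff₀ hH0, add_mul, div_mul_cancel₀ _ hH0.ne']
    refine e1.trans (add_le_add_right (e2.trans ?_) _)
    have e3 : (H : ℝ) ^ (QQ N d - (m + 1) * N) ≤ (H : ℝ) ^ (QQ N d - m * N) / H := by
      rw [le_div_iff₀ (by positivity)]
      exact hpow
    calc C * (H : ℝ) ^ (QQ N d - (m + 1) * N) ≤ C * ((H : ℝ) ^ (QQ N d - m * N) / H) :=
          mul_le_mul_of_nonneg_left e3 hC.le
      _ = C / H * (H : ℝ) ^ (QQ N d - m * N) := by ring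
  have hlim2 : Tendsto (fun H : ℕ => cnt N d H (fun F => Por N D θ (Set.univ : Set (Fin m → Fin m)) H F) /
        (H : ℝ) ^ (QQ N d - m * N) + C / H) atTop (𝓝 v) := by
    have h3 : Tendsto (fun H : ℕ => C / (H : ℝ)) atTop (𝓝 0) := tendsto_const_div_atTop_nhds_zero_nat C
    simpa using hlim.add h3
  exact tendsto_of_tendsto_of_tendsto_of_le_of_le' hlim hlim2
    ((eventually_ge_atTop 1).mono hlow) ((eventually_ge_atTop 1).mono hup)

end Pool.Agent.Q38.MPT
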