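import Pool.Agent.Q38.UG_SPG

/-!
# Project UG (helper256), job RAT: rational directions
-/

set_option autoImplicit false

namespace Pool.Agent.Q38.UGR

open Finset MvPolynomial
open Pool.Agent.Q256.UP (PBox)
open Pool.Agent.Q256.UI (ev tc Q kap rho)
open Pool.Agent.Q256.UG
open Pool.Agent.Q38.UGS

theorem kap_nt {d : ℕ} {F : MvPolynomial (Fin 2) ℤ} {θ : ℝ} (h : (0 : ℝ) < |tc F θ d 1|) :
    kap d (nt d F θ) = kap d (tc F θ) := by
  have h1 : tc F θ d 1 ≠ 0 := abs_pos.1 h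
  unfold kap nt
  have h2 : |tc F θ d 1| ≠ 0 := h.ne'
  field_simp

theorem rho_nt {d : ℕ} {F : MvPolynomial (Fin 2) ℤ} {θ : ℝ} (h : (0 : ℝ) < |tc F θ d 1|) :
    rho d (nt d F θ) = rho d (tc F θ) / |tc F θ d 1| := by
  have h2 := kap_nt h
  unfold rho
  rw [h2]
  unfold nt
  ring

/-- denominators -/
theorem tc_den (F : MvPolynomial (Fin 2) ℤ) (a b : ℤ) (hb : b ≠ 0) (k j m : ℕ) (hk : k ≤ m + j) :
    ∃ n : ℤ, tc F ((a : ℝ) / b) k j * (b : ℝ) ^ m = n := by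
  have hb' : (b : ℝ) ≠ 0 := by exact_mod_cast hb
  refine ⟨∑ i ∈ range (k + 1), F.coeff (Finsupp.single 0 (k - i) + Finsupp.single 1 i) *
    (i.choose j : ℤ) * a ^ (i - j) * b ^ (m - (i - j)), ?_⟩
  unfold tc
  push_cast
  rw [sum_mul]
  refine sum_congr rfl fun i hi => ?_
  have h1 : (b : ℝ) ^ m = (b : ℝ) ^ (i - j) * (b : ℝ) ^ (m - (i - j)) := by
    rw [← pow_add]
    congr 1
    have := mem_range.1 hi
    omega
  rw [h1, div_pow]
  field_simp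

/-- **RAT** -/
theorem rat : S_GD4 → S_SPG → Pool.Agent.Q256.UI.S_TAY → S_RAT := by
  intro h4 hS hTAY d c A hd hA
  obtain ⟨C, hC, h⟩ := h4 d A hd hA
  obtain ⟨C1, hC1, hS⟩ := hS d c A hd hA
  have hA4 : 1 ≤ A ^ 4 := one_le_pow₀ hA
  refine ⟨32768 * C * A ^ 4 + C1, ?_, ?_⟩
  · have : 0 ≤ 32768 * C * A ^ 4 := by positivity
    linarith
  intro H T W θ F hH hT hG hW hW2 p hp q hq hne hld
  have hHr : (1 : ℝ) ≤ H := by exact_mod_cast hH
  have hH0 : (0 : ℝ) < H := by linarith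
  have hH5 : (1 : ℝ) ≤ (H : ℝ) ^ 5 := one_le_pow₀ hHr
  have hg := hG.th.one
  have hgp : (0 : ℝ) < |tc F θ d 1| := by linarith
  have hgne : tc F θ d 1 ≠ 0 := abs_pos.1 hgp
  obtain ⟨t1, t2⟩ : 32768 * C * A ^ 4 * (H : ℝ) ^ 5 + 1 ≤ T ∧ C1 * (H : ℝ) ^ 2 ≤ T := by
    have e1 : (32768 * C * A ^ 4 + C1) * (H : ℝ) ^ 5 =
      32768 * C * A ^ 4 * (H : ℝ) ^ 5 + C1 * (H : ℝ) ^ 5 := by ring
    have e2 : 0 ≤ 32768 * C * A ^ 4 * (H : ℝ) ^ 5 := by positivity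
    have e3 : C1 * (H : ℝ) ^ 2 ≤ C1 * (H : ℝ) ^ 5 :=
      mul_le_mul_of_nonneg_left (pow_le_pow_right₀ hHr (by norm_num)) (by linarith)
    have e4 : 1 ≤ C1 * (H : ℝ) ^ 5 := one_le_mul_of_one_le_of_one_le hC1 hH5
    rw [e1] at hT
    constructor <;> linarith
  have hT1 : 1 ≤ T := by
    have e2 : 0 ≤ 32768 * C * A ^ 4 * (H : ℝ) ^ 5 := by positivity
    linarith
  have hT0 : 0 < T := by linarith
  have hW3 : W ≤ A * H * T ^ (d - 3) := by
    refine hW2.trans ?_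
    apply mul_le_mul_of_nonneg_left _ (by positivity)
    exact pow_le_pow_right₀ hT1 (by omega)
  obtain ⟨hn1, hn2⟩ := hS H T W θ F hH t2 hG hW hW3 p hp q hq hne
  have hθ : (p.2 : ℝ) - q.2 = θ * ((p.1 : ℝ) - q.1) := by
    rcases hn2 with h5 | h5
    · exact absurd hld h5.1
    · exact h5.2
  -- the rational number
  have hbZ : p.1 - q.1 ≠ 0 := sub_ne_zero.2 hn1
  have hbne : (p.1 : ℝ) - q.1 ≠ 0 := by exact_mod_cast hbZ
  obtain ⟨r, hr⟩ : ∃ r : ℚ, r = ((p.2 - q.2 : ℤ) : ℚ) / ((p.1 - q.1 : ℤ) : ℚ) := ⟨_, rfl⟩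
  obtain ⟨a, ha⟩ : ∃ a : ℤ, a = r.num := ⟨_, rfl⟩
  obtain ⟨b, hb⟩ : ∃ b : ℤ, b = (r.den : ℤ) := ⟨_, rfl⟩
  have hcop : IsCoprime a b := by
    rw [Int.isCoprime_iff_gcd_eq_one, ha, hb]
    have := r.reduced
    rwa [Nat.Coprime, ← Int.natAbs_natCast r.den] at this
  have hb1 : 1 ≤ b := by
    rw [hb]
    exact_mod_cast r.pos
  have hb0 : b ≠ 0 := by omega
  have hbr : (1 : ℝ) ≤ b := by exact_mod_cast hb1
  have hbp : (0 : ℝ) < b := by linarith
  have hθr : θ = (a : ℝ) / b := by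
    have h5 : (r : ℝ) = (a : ℝ) / b := by
      rw [ha, hb]
      have := Rat.cast_def (K := ℝ) r
      rw [this]
      push_cast
      rfl
    have h6 : (r : ℝ) = θ := by
      rw [hr]
      push_cast
      rw [hθ]
      field_simp
    rw [← h6, h5]
  have hab : |a| ≤ 2 * b := by
    have h5 : |(a : ℝ)| ≤ 2 * b := by
      have h6 := hG.th.abs
      rw [hθr, abs_div, abs_of_pos hbp, div_le_iff₀ hbp] at h6
      exact h6
    exact_mod_cast h5
  have hld0 : ld d F b a = 0 := by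
    have h5 := ld_tc d F b a hb0
    rw [← hθr, hG.th.zero, mul_zero] at h5
    exact_mod_cast h5
  by_cases hHb : (H : ℤ) < b ^ d
  · left
    exact ⟨a, b, hcop, hb1, hab, hHb, hld0⟩
  right
  push Not at hHb
  refine ⟨a, b, hcop, hb1, hab, hHb, hld0, ?_⟩
  rw [← hθr]
  -- K
  obtain ⟨G, hGe⟩ : ∃ G : ℝ, G = |tc F θ d 1| := ⟨_, rfl⟩
  obtain ⟨K, hK⟩ : ∃ K : ℝ, K = A * H / G := ⟨_, rfl⟩
  have hG0 : 0 < G := by rw [hGe]; exact hgp
  have hK1 : 1 ≤ K := by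
    rw [hK, hGe]; exact hG.k1
  have hK0 : 0 < K := by linarith
  have hKG : K * G = A * H := by
    rw [hK]
    field_simp
  have hGA : G ≤ A * H := by
    rw [← hKG]
    exact le_mul_of_one_le_left hG0.le hK1
  have hK2 : K ≤ 16 * A * H := by
    rw [hK, div_le_iff₀ hG0]
    have h3 : (0 : ℝ) ≤ A * H := by positivity
    have h4 : 1 ≤ 16 * G := by rw [hGe]; linarith
    have h5 := mul_le_mul_of_nonneg_left h4 h3
    linarith
  have hK4 : K ^ 3 ≤ 4096 * A ^ 3 * H ^ 3 := by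
    calc K ^ 3 ≤ (16 * A * H) ^ 3 := pow_le_pow_left₀ hK0.le hK2 3
      _ = _ := by ring
  -- A K^3 H^2 is at most T / 8 C
  have hbig : 8 * C * (A * (H : ℝ) ^ 2 * K ^ 3) + 1 ≤ T := by
    have e1 : A * (H : ℝ) ^ 2 * K ^ 3 ≤ A * (H : ℝ) ^ 2 * (4096 * A ^ 3 * H ^ 3) :=
      mul_le_mul_of_nonneg_left hK4 (by positivity)
    have e2 : A * (H : ℝ) ^ 2 * (4096 * A ^ 3 * H ^ 3) = 4096 * A ^ 4 * (H : ℝ) ^ 5 := by ring
    rw [e2] at e1
    have e3 := mul_le_mul_of_nonneg_left e1 (by linarith : 0 ≤ 8 * C)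
    linarith
  have hKT : K ≤ T := by
    have e1 : K ≤ K ^ 3 := le_self_pow₀ hK1 (by norm_num)
    have e2 : 1 ≤ A * (H : ℝ) ^ 2 := one_le_mul_of_one_le_of_one_le hA (one_le_pow₀ hHr)
    have e3 : K ^ 3 ≤ A * (H : ℝ) ^ 2 * K ^ 3 := le_mul_of_one_le_left (by positivity) e2
    have e4 : 0 ≤ A * (H : ℝ) ^ 2 * K ^ 3 := by positivity
    have e5 : A * (H : ℝ) ^ 2 * K ^ 3 ≤ 8 * C * (A * (H : ℝ) ^ 2 * K ^ 3) :=
      le_mul_of_one_le_left e4 (by linarith)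
    linarith
  obtain ⟨p1, p2, p3, p4⟩ := hp
  have hvp := val hTAY hG p p4
  rw [← hGe] at p3 hvp
  rw [← hK] at p3
  have hKA : K ≤ A * K := le_mul_of_one_le_left hK0.le hA
  have hbg : Bg d A K (nt d F θ) := by
    rw [hK, hGe]; exact hG.bg
  have hW' : 0 ≤ W / G := by positivity
  obtain ⟨g1, g2⟩ := h K T (W / G) (nt d F θ) hK1 hKT hbg hW' p.1 (p.2 - θ * p.1) p1 p2
    (p3.trans hKA) hvp
  rw [kap_nt hgp] at g1 g2
  rw [rho_nt hgp, ← hGe] at g2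
  have hTd : T ^ (d - 1) = T ^ (d - 4) * T ^ 3 := by rw [← pow_add]; congr 1; omega
  have hw : W / G / T ^ (d - 1) ≤ K ^ 3 / T := by
    have e1 : W / G / T ^ (d - 1) ≤ K / T ^ 3 := by
      rw [hTd, div_div, div_le_div_iff₀ (by positivity) (by positivity)]
      calc W * T ^ 3 ≤ (A * H * T ^ (d - 4)) * T ^ 3 :=
            mul_le_mul_of_nonneg_right hW2 (by positivity)
        _ = (K * G) * T ^ (d - 4) * T ^ 3 := by rw [hKG]
        _ = _ := by ring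
    refine e1.trans ?_
    exact div_le_div₀ (by positivity) (le_self_pow₀ hK1 (by norm_num)) hT0
      (le_self_pow₀ hT1 (by norm_num))
  have hw2 : W / G * T / T ^ (d - 1) ≤ K ^ 4 / T := by
    have e1 : W / G * T / T ^ (d - 1) ≤ K / T ^ 2 := by
      rw [hTd, div_mul_eq_mul_div, div_div, div_le_div_iff₀ (by positivity) (by positivity)]
      calc W * T * T ^ 2 ≤ (A * H * T ^ (d - 4)) * T * T ^ 2 :=
            mul_le_mul_of_nonneg_right (mul_le_mul_of_nonneg_right hW2 hT0.le) (by positivity)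
        _ = (K * G) * T ^ (d - 4) * T * T ^ 2 := by rw [hKG]
        _ = _ := by ring
    refine e1.trans ?_
    exact div_le_div₀ (by positivity) (le_self_pow₀ hK1 (by norm_num)) hT0
      (le_self_pow₀ hT1 (by norm_num))
  have hu1 : |((p.2 : ℝ) - θ * p.1) - kap d (tc F θ)| ≤ 2 * C * (K ^ 3 / T) := by
    refine g1.trans ?_
    have := mul_le_mul_of_nonneg_left (add_le_add (le_refl (K ^ 3 / T)) hw) (by linarith : 0 ≤ C)
    linarith
  -- integrality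
  obtain ⟨n1, hn1'⟩ := tc_den F a b hb0 (d - 1) 0 (d - 1) (by omega)
  obtain ⟨n2, hn2'⟩ := tc_den F a b hb0 d 1 (d - 1) (by omega)
  rw [← hθr] at hn1' hn2'
  have hbd : (0 : ℝ) < (b : ℝ) ^ (d - 1) := by positivity
  have hn20 : (n2 : ℝ) ≠ 0 := by
    rw [← hn2']
    exact mul_ne_zero hgne hbd.ne'
  have hkap : kap d (tc F θ) = -(n1 : ℝ) / n2 := by
    unfold kap
    rw [← hn1', ← hn2']
    field_simp
  have hdiff : ((p.2 : ℝ) - θ * p.1) - kap d (tc F θ) =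
      (((b * p.2 - a * p.1) * n2 + n1 * b : ℤ) : ℝ) / (b * n2) := by
    rw [hkap, hθr]
    push_cast
    field_simp
    ring
  have hbn2 : |(b : ℝ) * n2| ≤ A * (H : ℝ) ^ 2 := by
    rw [abs_mul, abs_of_pos hbp, ← hn2', abs_mul, abs_of_pos hbd, ← hGe]
    have e1 : (b : ℝ) ^ d ≤ H := by exact_mod_cast hHb
    have e2 : (b : ℝ) * (b : ℝ) ^ (d - 1) = (b : ℝ) ^ d := by
      rw [← pow_succ']; congr 1; omega
    calc (b : ℝ) * (G * (b : ℝ) ^ (d - 1)) = (b : ℝ) * (b : ℝ) ^ (d - 1) * G := by ring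
      _ = (b : ℝ) ^ d * G := by rw [e2]
      _ ≤ H * (A * H) := mul_le_mul e1 hGA hG0.le hH0.le
      _ = _ := by ring
  have hukap : (p.2 : ℝ) - θ * p.1 = kap d (tc F θ) := by
    by_cases hI : (b * p.2 - a * p.1) * n2 + n1 * b = 0
    · rw [hI, Int.cast_zero, zero_div] at hdiff
      linarith
    · exfalso
      have e1 : (1 : ℝ) ≤ |(((b * p.2 - a * p.1) * n2 + n1 * b : ℤ) : ℝ)| := by
        have := Int.one_le_abs hI
        exact_mod_cast this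
      have e2 : 0 < |(b : ℝ) * n2| := abs_pos.2 (mul_ne_zero hbp.ne' hn20)
      have e3 : 1 ≤ |((p.2 : ℝ) - θ * p.1) - kap d (tc F θ)| * (A * (H : ℝ) ^ 2) := by
        rw [hdiff, abs_div]
        calc (1 : ℝ) ≤ |(((b * p.2 - a * p.1) * n2 + n1 * b : ℤ) : ℝ)| := e1
          _ = |(((b * p.2 - a * p.1) * n2 + n1 * b : ℤ) : ℝ)| / |(b : ℝ) * n2| * |(b : ℝ) * n2| := by
            field_simp
          _ ≤ _ := mul_le_mul_of_nonneg_left hbn2 (by positivity)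
      have e4 : |((p.2 : ℝ) - θ * p.1) - kap d (tc F θ)| * (A * (H : ℝ) ^ 2) ≤
          2 * C * (K ^ 3 / T) * (A * (H : ℝ) ^ 2) :=
        mul_le_mul_of_nonneg_right hu1 (by positivity)
      have e5 : 2 * C * (K ^ 3 / T) * (A * (H : ℝ) ^ 2) < 1 := by
        have e6 : 2 * C * (K ^ 3 / T) * (A * (H : ℝ) ^ 2) =
            (2 * C * (A * (H : ℝ) ^ 2 * K ^ 3)) / T := by ring
        rw [e6, div_lt_one hT0]
        have e7 : 0 ≤ C * (A * (H : ℝ) ^ 2 * K ^ 3) := by positivity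
        linarith
      linarith
  have g3 := g2 hukap
  rw [abs_div, abs_of_pos hG0, div_le_iff₀ hG0] at g3
  refine g3.trans ?_
  have e1 : C * (K ^ 4 / T + W / G * T / T ^ (d - 1)) * G ≤ C * (K ^ 4 / T + K ^ 4 / T) * G := by
    apply mul_le_mul_of_nonneg_right _ hG0.le
    exact mul_le_mul_of_nonneg_left (add_le_add le_rfl hw2) (by linarith)
  refine e1.trans ?_
  have e2 : C * (K ^ 4 / T + K ^ 4 / T) * G = 2 * C * ((K * G) * K ^ 3) / T := by ring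
  rw [e2, hKG, div_le_iff₀ hT0]
  have e3 : A * H * K ^ 3 ≤ A * (H : ℝ) ^ 2 * K ^ 3 := by
    apply mul_le_mul_of_nonneg_right _ (by positivity)
    apply mul_le_mul_of_nonneg_left _ (by linarith)
    exact le_self_pow₀ hHr (by norm_num)
  have e4 := mul_le_mul_of_nonneg_left e3 (by linarith : 0 ≤ 2 * C)
  linarith

end Pool.Agent.Q38.UGR
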