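import Pool.Agent.Q256.UG.Stm

/-!
# Project UG (helper256), job SPG: the spacing
-/

set_option autoImplicit false

namespace Pool.Agent.Q38.UGS

open Finset MvPolynomial
open Pool.Agent.Q256.UP (PBox)
open Pool.Agent.Q256.UI (ev tc Q kap rho)
open Pool.Agent.Q256.UG

/-- Taylor's formula for the leading form -/
theorem tc_taylor (d : ℕ) (F : MvPolynomial (Fin 2) ℤ) (θ w : ℝ) :
    tc F w d 0 = ∑ j ∈ range (d + 1), tc F θ d j * (w - θ) ^ j := by
  unfold tc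
  have h1 : ∀ j ∈ range (d + 1), (∑ i ∈ range (d + 1),
      ((F.coeff (Finsupp.single 0 (d - i) + Finsupp.single 1 i) : ℤ) : ℝ) * (i.choose j : ℝ) *
      θ ^ (i - j)) * (w - θ) ^ j = ∑ i ∈ range (d + 1),
      ((F.coeff (Finsupp.single 0 (d - i) + Finsupp.single 1 i) : ℤ) : ℝ) * (i.choose j : ℝ) *
      θ ^ (i - j) * (w - θ) ^ j := fun j _ => by
    rw [sum_mul]
  rw [sum_congr rfl h1, sum_comm]
  refine sum_congr rfl fun i hi => ?_
  have hik : i ≤ d := by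
    have := mem_range.1 hi
    omega
  have h2 : w ^ i = ∑ j ∈ range (d + 1), (i.choose j : ℝ) * θ ^ (i - j) * (w - θ) ^ j := by
    have e : w = (w - θ) + θ := by ring
    conv_lhs => rw [e]
    rw [add_pow]
    have h3 : range (i + 1) ⊆ range (d + 1) := range_subset_range.2 (by omega)
    rw [← sum_subset h3 (f := fun j => (i.choose j : ℝ) * θ ^ (i - j) * (w - θ) ^ j)]
    · refine sum_congr rfl fun j _ => ?_
      ring
    · intro j _ hj
      rw [mem_range, not_lt] at hj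
      rw [Nat.choose_eq_zero_of_lt (by omega)]
      simp
  rw [Nat.choose_zero_right, Nat.cast_one, mul_one, Nat.sub_zero, h2, mul_sum]
  refine sum_congr rfl fun j _ => ?_
  ring

theorem ld_tc (d : ℕ) (F : MvPolynomial (Fin 2) ℤ) (b a : ℤ) (hb : b ≠ 0) :
    ((ld d F b a : ℤ) : ℝ) = (b : ℝ) ^ d * tc F ((a : ℝ) / b) d 0 := by
  have hb' : (b : ℝ) ≠ 0 := by exact_mod_cast hb
  unfold ld tc
  push_cast
  rw [mul_sum]
  refine sum_congr rfl fun i hi => ?_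
  have h1 : (b : ℝ) ^ d = (b : ℝ) ^ (d - i) * (b : ℝ) ^ i := by
    rw [← pow_add]
    congr 1
    have := mem_range.1 hi
    omega
  rw [h1, Nat.choose_zero_right, Nat.cast_one, Nat.sub_zero, div_pow]
  field_simp

/-- The value at the point in normalised coordinates. -/
theorem val {d : ℕ} (hT : Pool.Agent.Q256.UI.S_TAY) {c : ℕ} {A : ℝ} {H : ℕ}
    {F : MvPolynomial (Fin 2) ℤ} {θ : ℝ} (hG : Gd d c A H F θ) {W : ℝ} (p : ℤ × ℤ)
    (hp : |((eval ![p.1, p.2] F : ℤ) : ℝ)| ≤ W) :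
    |Q d (nt d F θ) p.1 ((p.2 : ℝ) - θ * p.1)| ≤ W / |tc F θ d 1| := by
  have h1 : (0 : ℝ) < |tc F θ d 1| := by
    have := hG.th.one
    linarith
  have h2 : Q d (nt d F θ) p.1 ((p.2 : ℝ) - θ * p.1) =
      Q d (tc F θ) p.1 ((p.2 : ℝ) - θ * p.1) / |tc F θ d 1| := by
    unfold Q nt
    rw [sum_div]
    refine sum_congr rfl fun k _ => ?_
    rw [sum_div]
    refine sum_congr rfl fun j _ => ?_
    ring
  have h3 : Q d (tc F θ) p.1 ((p.2 : ℝ) - θ * p.1) = ((eval ![p.1, p.2] F : ℤ) : ℝ) := by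
    rw [← hT.1 d F θ p.1 ((p.2 : ℝ) - θ * p.1) hG.box.1, ← hT.2]
    congr 1
    ring
  rw [h2, h3, abs_div, abs_abs]
  exact div_le_div_of_nonneg_right hp h1.le

theorem ptc_le {d c : ℕ} {A : ℝ} {H : ℕ} {F : MvPolynomial (Fin 2) ℤ} {θ : ℝ}
    (hG : Gd d c A H F θ) (j : ℕ) (hj : j ≤ d) : |tc F θ d j| ≤ A ^ 2 * H := by
  have h1 : (0 : ℝ) < |tc F θ d 1| := by
    have := hG.th.one
    linarith
  have h2 := hG.bg.all d j le_rfl hj
  unfold nt at h2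
  rw [abs_div, abs_abs, div_le_iff₀ h1] at h2
  refine h2.trans (le_of_eq ?_)
  field_simp

/-- Near `θ` the leading form is nearly linear. -/
theorem lin {d c : ℕ} {A : ℝ} {H : ℕ} {F : MvPolynomial (Fin 2) ℤ} {θ : ℝ} (hd : 2 ≤ d)
    (hA : 1 ≤ A) (hG : Gd d c A H F θ) (w : ℝ) (hw1 : |w - θ| ≤ 1)
    (hw : 32 * (d * (A ^ 2 * H)) * |w - θ| ≤ 1) :
    |tc F θ d 1| * |w - θ| ≤ 2 * |tc F w d 0| ∧ |tc F w d 0| ≤ 2 * (|tc F θ d 1| * |w - θ|) := by
  have h1 := hG.th.one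
  have h2 : tc F w d 0 = tc F θ d 1 * (w - θ) +
      ∑ j ∈ range (d - 1), tc F θ d (j + 2) * (w - θ) ^ (j + 2) := by
    rw [tc_taylor d F θ w]
    obtain ⟨n, rfl⟩ : ∃ n, d = n + 1 := ⟨d - 1, by omega⟩
    rw [Finset.sum_range_succ', Finset.sum_range_succ']
    rw [hG.th.zero]
    simp only [Nat.add_sub_cancel, zero_add, pow_one, pow_zero, zero_mul, add_zero]
    rw [add_comm]
  have h3 : |∑ j ∈ range (d - 1), tc F θ d (j + 2) * (w - θ) ^ (j + 2)| ≤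
      (d * (A ^ 2 * H)) * |w - θ| ^ 2 := by
    refine (abs_sum_le_sum_abs _ _).trans ?_
    have h4 : ∀ j ∈ range (d - 1), |tc F θ d (j + 2) * (w - θ) ^ (j + 2)| ≤
        (A ^ 2 * H) * |w - θ| ^ 2 := by
      intro j hj
      rw [abs_mul, abs_pow]
      apply mul_le_mul (ptc_le hG (j + 2) (by have := mem_range.1 hj; omega)) _ (by positivity)
        (by positivity)
      exact pow_le_pow_of_le_one (abs_nonneg _) hw1 (by omega)
    refine (Finset.sum_le_sum h4).trans ?_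
    rw [Finset.sum_const, card_range, nsmul_eq_mul]
    have h5 : (0 : ℝ) ≤ (A ^ 2 * H) * |w - θ| ^ 2 := by positivity
    have h6 : ((d - 1 : ℕ) : ℝ) ≤ d := by exact_mod_cast Nat.sub_le d 1
    nlinarith
  have h4 : (d * (A ^ 2 * H)) * |w - θ| ^ 2 ≤ 1 / 2 * (|tc F θ d 1| * |w - θ|) := by
    have h5 : 0 ≤ |w - θ| := abs_nonneg _
    nlinarith
  have h5 : |tc F θ d 1 * (w - θ)| = |tc F θ d 1| * |w - θ| := abs_mul _ _
  have h6 : |tc F w d 0 - tc F θ d 1 * (w - θ)| ≤ 1 / 2 * (|tc F θ d 1| * |w - θ|) := by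
    rw [h2, add_sub_cancel_left]
    exact h3.trans h4
  have h7 : |tc F θ d 1 * (w - θ)| ≤ |tc F w d 0| + |tc F w d 0 - tc F θ d 1 * (w - θ)| := by
    have := abs_sub_abs_le_abs_sub (tc F θ d 1 * (w - θ)) (tc F w d 0)
    rw [abs_sub_comm] at this
    linarith
  have h8 : |tc F w d 0| ≤ |tc F θ d 1 * (w - θ)| + |tc F w d 0 - tc F θ d 1 * (w - θ)| := by
    have := abs_sub_abs_le_abs_sub (tc F w d 0) (tc F θ d 1 * (w - θ))
    linarith
  rw [h5] at h7 h8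
  have h9 : 0 ≤ |tc F θ d 1| * |w - θ| := by positivity
  constructor <;> linarith

/-- **SPG** -/
theorem spg : S_GD1 → Pool.Agent.Q256.UI.S_TAY → S_SPG := by
  intro h1 hTAY d c A hd hA
  obtain ⟨C, hC, h⟩ := h1 d A hd hA
  obtain ⟨D, hD⟩ : ∃ D : ℝ, D = 2 * C * 4096 * A ^ 3 := ⟨_, rfl⟩
  have hA3 : 1 ≤ A ^ 3 := one_le_pow₀ hA
  have hA2 : 1 ≤ A ^ 2 := one_le_pow₀ hA
  have hD1 : 1 ≤ D := by
    rw [hD]
    have := one_le_mul_of_one_le_of_one_le hC hA3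
    linarith
  have hD0 : 0 < D := by linarith
  have hd1 : (1 : ℝ) ≤ d := by exact_mod_cast (by omega : 1 ≤ d)
  -- the constant
  refine ⟨2 * D + 32 * (d * A ^ 2) * D + 512 * C * A ^ 2 + 1, ?_, ?_⟩
  · have : 0 ≤ 32 * (d * A ^ 2) * D := by positivity
    have : 0 ≤ 512 * C * A ^ 2 := by positivity
    linarith
  intro H T W θ F hH hT hG hW hW2 p hp q hq hne
  have hHr : (1 : ℝ) ≤ H := by exact_mod_cast hH
  have hH0 : (0 : ℝ) < H := by linarith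
  have hH2 : (1 : ℝ) ≤ (H : ℝ) ^ 2 := one_le_pow₀ hHr
  have hg := hG.th.one
  have hgp : (0 : ℝ) < |tc F θ d 1| := by linarith
  obtain ⟨G, hGe⟩ : ∃ G : ℝ, G = |tc F θ d 1| := ⟨_, rfl⟩
  obtain ⟨K, hK⟩ : ∃ K : ℝ, K = A * H / G := ⟨_, rfl⟩
  have hG0 : 0 < G := by rw [hGe]; exact hgp
  have hK1 : 1 ≤ K := by
    rw [hK, hGe]; exact hG.k1
  have hK0 : 0 < K := by linarith
  have hKG : K * G = A * H := by
    rw [hK]
    field_simp
  have hK2 : K ≤ 16 * A * H := by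
    rw [hK, div_le_iff₀ hG0]
    have h3 : (0 : ℝ) ≤ A * H := by positivity
    have h4 : 1 ≤ 16 * G := by rw [hGe]; linarith
    have h5 := mul_le_mul_of_nonneg_left h4 h3
    linarith
  have hK3 : K ^ 2 ≤ 256 * A ^ 2 * H ^ 2 := by
    calc K ^ 2 ≤ (16 * A * H) ^ 2 := pow_le_pow_left₀ hK0.le hK2 2
      _ = _ := by ring
  have hK4 : K ^ 3 ≤ 4096 * A ^ 3 * H ^ 3 := by
    calc K ^ 3 ≤ (16 * A * H) ^ 3 := pow_le_pow_left₀ hK0.le hK2 3
      _ = _ := by ring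
  obtain ⟨t1, t2, t3⟩ : 512 * C * A ^ 2 * (H : ℝ) ^ 2 + 1 ≤ T ∧ 2 * D * (H : ℝ) ^ 2 ≤ T ∧
      32 * (d * A ^ 2) * D * (H : ℝ) ^ 2 ≤ T := by
    have e1 : 0 ≤ 32 * (d * A ^ 2) * D * (H : ℝ) ^ 2 := by positivity
    have e2 : 0 ≤ 512 * C * A ^ 2 * (H : ℝ) ^ 2 := by positivity
    have e3 : 0 ≤ 2 * D * (H : ℝ) ^ 2 := by positivity
    have e4 : (2 * D + 32 * (d * A ^ 2) * D + 512 * C * A ^ 2 + 1) * (H : ℝ) ^ 2 =
      2 * D * (H : ℝ) ^ 2 + 32 * (d * A ^ 2) * D * (H : ℝ) ^ 2 + 512 * C * A ^ 2 * (H : ℝ) ^ 2 +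
        (H : ℝ) ^ 2 := by ring
    rw [e4] at hT
    refine ⟨by linarith, by linarith, by linarith⟩
  have hT1 : 1 ≤ T := by
    have e2 : 0 ≤ 512 * C * A ^ 2 * (H : ℝ) ^ 2 := by positivity
    linarith
  have hT0 : 0 < T := by linarith
  have hCK : 2 * (C * K ^ 2) ≤ T := by
    have e1 : C * K ^ 2 ≤ C * (256 * A ^ 2 * H ^ 2) := mul_le_mul_of_nonneg_left hK3 (by linarith)
    linarith
  have hCK1 : C * K ^ 2 ≤ T := by
    have : 0 ≤ C * K ^ 2 := by positivity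
    linarith
  obtain ⟨p1, p2, p3, p4⟩ := hp
  obtain ⟨q1, q2, q3, q4⟩ := hq
  have hvp := val hTAY hG p p4
  have hvq := val hTAY hG q q4
  rw [← hGe] at p3 q3 hvp hvq
  rw [← hK] at p3 q3
  have hKA : K ≤ A * K := le_mul_of_one_le_left hK0.le hA
  have hbg : Bg d A K (nt d F θ) := by
    rw [hK, hGe]; exact hG.bg
  have hW' : 0 ≤ W / G := by positivity
  have hh := h K T (W / G) (nt d F θ) hK1 hCK1 hbg hW' p.1 q.1 (p.2 - θ * p.1) (q.2 - θ * q.1)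
    p1 p2 q1 q2 (p3.trans hKA) (q3.trans hKA) hvp hvq
  have hw : W / G / T ^ (d - 1) ≤ K / T ^ 2 := by
    have e : T ^ (d - 1) = T ^ (d - 3) * T ^ 2 := by rw [← pow_add]; congr 1; omega
    rw [e, div_div, div_le_div_iff₀ (by positivity) (by positivity)]
    calc W * T ^ 2 ≤ (A * H * T ^ (d - 3)) * T ^ 2 := mul_le_mul_of_nonneg_right hW2 (by positivity)
      _ = (K * G) * T ^ (d - 3) * T ^ 2 := by rw [hKG]
      _ = _ := by ring
  have h2 : |((p.2 : ℝ) - θ * p.1) - (q.2 - θ * q.1)| ≤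
      C * (K ^ 3 / T ^ 2 * |(p.1 : ℝ) - q.1| + K / T ^ 2) := by
    refine hh.trans ?_
    apply mul_le_mul_of_nonneg_left _ (by linarith)
    linarith
  have hne1 : p.1 ≠ q.1 := by
    intro he
    have hne2 : p.2 ≠ q.2 := fun h2 => hne (Prod.ext he h2)
    have h3 : (1 : ℝ) ≤ |(p.2 : ℝ) - q.2| := by
      have : 1 ≤ |p.2 - q.2| := Int.one_le_abs (sub_ne_zero.2 hne2)
      exact_mod_cast this
    have h4 : ((p.2 : ℝ) - θ * p.1) - (q.2 - θ * q.1) = p.2 - q.2 := by rw [he]; ring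
    rw [h4, he, sub_self, abs_zero, mul_zero, zero_add] at h2
    have h5 : C * (K / T ^ 2) < 1 := by
      rw [← mul_div_assoc, div_lt_one (by positivity)]
      have h6 : C * K ≤ C * K ^ 2 :=
        mul_le_mul_of_nonneg_left (le_self_pow₀ hK1 (by norm_num)) (by linarith)
      have h7 : 0 < C * K := by positivity
      have h8 : T ≤ T ^ 2 := le_self_pow₀ hT1 (by norm_num)
      linarith
    linarith
  refine ⟨hne1, ?_⟩
  have hbZ : p.1 - q.1 ≠ 0 := sub_ne_zero.2 hne1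
  have hb : 1 ≤ |p.1 - q.1| := Int.one_le_abs hbZ
  have hbr : (1 : ℝ) ≤ |(p.1 : ℝ) - q.1| := by exact_mod_cast hb
  have hbne : (p.1 : ℝ) - q.1 ≠ 0 := by
    intro h0
    rw [h0, abs_zero] at hbr
    linarith
  have h3 : |((p.2 : ℝ) - θ * p.1) - (q.2 - θ * q.1)| ≤
      2 * C * (K ^ 3 / T ^ 2) * |(p.1 : ℝ) - q.1| := by
    refine h2.trans ?_
    have h4 : K / T ^ 2 ≤ K ^ 3 / T ^ 2 * |(p.1 : ℝ) - q.1| := by
      have h5 : K / T ^ 2 ≤ K ^ 3 / T ^ 2 := by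
        apply div_le_div_of_nonneg_right _ (by positivity)
        exact le_self_pow₀ hK1 (by norm_num)
      exact h5.trans (le_mul_of_one_le_right (by positivity) hbr)
    calc C * (K ^ 3 / T ^ 2 * |(p.1 : ℝ) - q.1| + K / T ^ 2) ≤
        C * (K ^ 3 / T ^ 2 * |(p.1 : ℝ) - q.1| + K ^ 3 / T ^ 2 * |(p.1 : ℝ) - q.1|) :=
          mul_le_mul_of_nonneg_left (add_le_add le_rfl h4) (by linarith)
      _ = _ := by ring
  obtain ⟨w, hwd⟩ : ∃ w : ℝ, w = ((p.2 : ℝ) - q.2) / ((p.1 : ℝ) - q.1) := ⟨_, rfl⟩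
  have hwθ : w - θ = (((p.2 : ℝ) - θ * p.1) - (q.2 - θ * q.1)) / ((p.1 : ℝ) - q.1) := by
    rw [hwd]
    field_simp
    ring
  have hwabs : |w - θ| ≤ 2 * C * (K ^ 3 / T ^ 2) := by
    rw [hwθ, abs_div, div_le_iff₀ (by linarith)]
    exact h3
  have hwD : |w - θ| ≤ D * (H : ℝ) ^ 3 / T ^ 2 := by
    refine hwabs.trans ?_
    rw [← mul_div_assoc]
    apply div_le_div_of_nonneg_right _ (by positivity)
    rw [hD]
    have e1 := mul_le_mul_of_nonneg_left hK4 (by linarith : 0 ≤ 2 * C)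
    linarith
  have hw1 : |w - θ| ≤ 1 := by
    refine hwD.trans ?_
    rw [div_le_one (by positivity)]
    have e1 : (H : ℝ) ^ 3 ≤ (H : ℝ) ^ 4 := pow_le_pow_right₀ hHr (by norm_num)
    have e2 : (D * (H : ℝ) ^ 2) ^ 2 ≤ T ^ 2 := by
      apply pow_le_pow_left₀ (by positivity)
      have : 0 ≤ D * (H : ℝ) ^ 2 := by positivity
      linarith
    have e3 : D * (H : ℝ) ^ 3 ≤ (D * (H : ℝ) ^ 2) ^ 2 := by
      have e4 : (D * (H : ℝ) ^ 2) ^ 2 = D ^ 2 * (H : ℝ) ^ 4 := by ring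
      rw [e4]
      exact mul_le_mul (le_self_pow₀ hD1 (by norm_num)) e1 (by positivity) (by positivity)
    linarith
  have hw32 : 32 * (d * (A ^ 2 * H)) * |w - θ| ≤ 1 := by
    have e0 : 32 * (d * (A ^ 2 * H)) * |w - θ| ≤ 32 * (d * (A ^ 2 * H)) * (D * (H : ℝ) ^ 3 / T ^ 2) :=
      mul_le_mul_of_nonneg_left hwD (by positivity)
    refine e0.trans ?_
    rw [← mul_div_assoc, div_le_one (by positivity)]
    have e2 : (32 * (d * A ^ 2) * D * (H : ℝ) ^ 2) * (1 * (H : ℝ) ^ 2) ≤ T * T := by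
      apply mul_le_mul t3 _ (by positivity) (by linarith)
      have e3 : 1 * (H : ℝ) ^ 2 ≤ 2 * D * (H : ℝ) ^ 2 :=
        mul_le_mul_of_nonneg_right (by linarith) (by positivity)
      exact e3.trans t2
    calc 32 * (d * (A ^ 2 * H)) * (D * (H : ℝ) ^ 3) =
        (32 * (d * A ^ 2) * D * (H : ℝ) ^ 2) * (1 * (H : ℝ) ^ 2) := by ring
      _ ≤ T * T := e2
      _ = T ^ 2 := by ring
  obtain ⟨L1, L2⟩ := lin (by omega) hA hG w hw1 hw32
  have hldw : ((ld d F (p.1 - q.1) (p.2 - q.2) : ℤ) : ℝ) = ((p.1 : ℝ) - q.1) ^ d * tc F w d 0 := by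
    rw [ld_tc d F _ _ hbZ, hwd]
    push_cast
    rfl
  by_cases h0 : ld d F (p.1 - q.1) (p.2 - q.2) = 0
  · right
    refine ⟨h0, ?_⟩
    rw [h0, Int.cast_zero] at hldw
    have h5 : tc F w d 0 = 0 := by
      rcases mul_eq_zero.1 hldw.symm with h6 | h6
      · exact absurd (pow_eq_zero_iff (by omega : d ≠ 0) |>.1 h6) hbne
      · exact h6
    rw [h5, abs_zero, mul_zero] at L1
    have h6 : |w - θ| = 0 := by
      by_contra h8
      have h7 : 0 < |w - θ| := lt_of_le_of_ne (abs_nonneg _) (Ne.symm h8)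
      have h9 := mul_pos hgp h7
      linarith
    have h7 : w = θ := by
      have := abs_eq_zero.1 h6
      linarith
    rw [← h7, hwd]
    field_simp
  · left
    refine ⟨h0, ?_⟩
    have h5 : (1 : ℝ) ≤ |((ld d F (p.1 - q.1) (p.2 - q.2) : ℤ) : ℝ)| := by
      have := Int.one_le_abs h0
      exact_mod_cast this
    rw [hldw, abs_mul, abs_pow] at h5
    obtain ⟨B, hBe⟩ : ∃ B : ℝ, B = |(p.1 : ℝ) - q.1| := ⟨_, rfl⟩
    rw [← hBe] at h5 hbr ⊢
    have hB0 : 0 < B := by linarith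
    -- |f(w)| ≤ 2 G |w - θ| ≤ 4 C (G K) K^2/T^2
    have h6 : |tc F w d 0| ≤ 4 * C * (A * H * K ^ 2) / T ^ 2 := by
      refine L2.trans ?_
      rw [← hGe]
      calc 2 * (G * |w - θ|) ≤ 2 * (G * (2 * C * (K ^ 3 / T ^ 2))) := by
            apply mul_le_mul_of_nonneg_left _ (by norm_num)
            exact mul_le_mul_of_nonneg_left hwabs hG0.le
        _ = 4 * C * ((K * G) * K ^ 2) / T ^ 2 := by ring
        _ = _ := by rw [hKG]
    have h7 : 4 * C * (A * H * K ^ 2) / T ^ 2 ≤ D * (H : ℝ) ^ 4 / T ^ 2 := by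
      apply div_le_div_of_nonneg_right _ (by positivity)
      have e1 : 4 * C * (A * H * K ^ 2) ≤ 4 * C * (A * H * (256 * A ^ 2 * H ^ 2)) := by
        apply mul_le_mul_of_nonneg_left _ (by linarith)
        exact mul_le_mul_of_nonneg_left hK3 (by positivity)
      have e2 : 4 * C * (A * H * (256 * A ^ 2 * (H : ℝ) ^ 2)) = 1024 * C * A ^ 3 * (H : ℝ) ^ 3 := by ring
      have e3 : (H : ℝ) ^ 3 ≤ (H : ℝ) ^ 4 := pow_le_pow_right₀ hHr (by norm_num)
      have e4 : 1024 * C * A ^ 3 * (H : ℝ) ^ 3 ≤ 1024 * C * A ^ 3 * (H : ℝ) ^ 4 :=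
        mul_le_mul_of_nonneg_left e3 (by positivity)
      have e5 : 0 ≤ C * A ^ 3 * (H : ℝ) ^ 4 := by positivity
      rw [hD]
      linarith
    have h8 : 1 ≤ B ^ d * (D * (H : ℝ) ^ 4 / T ^ 2) :=
      h5.trans (mul_le_mul_of_nonneg_left (h6.trans h7) (by positivity))
    rw [← mul_div_assoc, one_le_div (by positivity)] at h8
    refine h8.trans ?_
    have e1 : 0 ≤ 32 * (d * A ^ 2) * D := by positivity
    have e2 : 0 ≤ 512 * C * A ^ 2 := by positivity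
    have e3 : D ≤ 2 * D + 32 * (d * A ^ 2) * D + 512 * C * A ^ 2 + 1 := by linarith
    calc B ^ d * (D * (H : ℝ) ^ 4) = D * (H : ℝ) ^ 4 * B ^ d := by ring
      _ ≤ _ := by
        apply mul_le_mul_of_nonneg_right _ (by positivity)
        exact mul_le_mul_of_nonneg_right e3 (by positivity)

end Pool.Agent.Q38.UGS
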