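import Pool.Agent.Q38.UG_RAT

/-!
# Project UG (helper256), job TWG: no three points in a window
-/

set_option autoImplicit false

namespace Pool.Agent.Q38.UGT

open Finset MvPolynomial
open Pool.Agent.Q256.UP (PBox)
open Pool.Agent.Q256.UI (ev tc Q kap rho)
open Pool.Agent.Q256.UG
open Pool.Agent.Q38.UGS Pool.Agent.Q38.UGR

private lemma one_le_abs' {a b : ℤ} (h : a ≠ b) : (1 : ℝ) ≤ |(a : ℝ) - b| := by
  have h1 : (1 : ℤ) ≤ |a - b| := Int.one_le_abs (sub_ne_zero.2 h)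
  have h2 : ((1 : ℤ) : ℝ) ≤ ((|a - b| : ℤ) : ℝ) := by exact_mod_cast h1
  rw [Int.cast_abs, Int.cast_sub] at h2
  simpa using h2

/-- **TWG** -/
theorem twg : S_GD3 → S_SPG → S_COG → S_RAT → Pool.Agent.Q256.UI.S_TAY → S_TWG := by
  intro h3 hs hc hr hTAY d c A hd hA
  obtain ⟨C3, hC3, h3⟩ := h3 d A (by omega) hA
  obtain ⟨C1, hC1, hs⟩ := hs d c A (by omega) hA
  obtain ⟨c0, C2, hc0, hC2, hc⟩ := hc d c A (by omega) hA
  obtain ⟨C4, hC4, hr⟩ := hr d c A (by omega) hA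
  obtain ⟨M, hM⟩ : ∃ M : ℝ, M = 8 * C3 * A := ⟨_, rfl⟩
  have hM0 : 0 < M := by rw [hM]; positivity
  obtain ⟨C5, hC5⟩ : ∃ C5 : ℝ, C5 = 256 * C3 * A ^ 2 := ⟨_, rfl⟩
  obtain ⟨C6, hC6⟩ : ∃ C6 : ℝ, C6 = 524288 * C3 * A ^ 5 := ⟨_, rfl⟩
  have hC50 : 0 < C5 := by rw [hC5]; positivity
  have hC60 : 0 < C6 := by rw [hC6]; positivity
  refine ⟨c0, C1 ^ 2 + C2 ^ 2 + C4 ^ 2 + C5 ^ 2 + C6 ^ 2 + C1 ^ 2 * M ^ d + 1, hc0, ?_, ?_⟩
  · have : 0 ≤ C1 ^ 2 + C2 ^ 2 + C4 ^ 2 + C5 ^ 2 + C6 ^ 2 + C1 ^ 2 * M ^ d := by positivity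
    linarith
  intro H T W L θ F hH hT0 hHT hG hRS hRD hW0 hW hrho hL0 hL p hp q hq r hr' hpq hqr hrp npq nqr nrp
  obtain ⟨b1, b2, b4, b5, b6, b7, hH1⟩ : C1 ^ 2 ≤ (H : ℝ) ∧ C2 ^ 2 ≤ (H : ℝ) ∧ C4 ^ 2 ≤ (H : ℝ) ∧
      C5 ^ 2 ≤ (H : ℝ) ∧ C6 ^ 2 ≤ (H : ℝ) ∧ C1 ^ 2 * M ^ d < (H : ℝ) ∧ 1 ≤ (H : ℝ) := by
    have e1 : 0 ≤ C1 ^ 2 := by positivity
    have e2 : 0 ≤ C2 ^ 2 := by positivity
    have e4 : 0 ≤ C4 ^ 2 := by positivity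
    have e5 : 0 ≤ C5 ^ 2 := by positivity
    have e6 : 0 ≤ C6 ^ 2 := by positivity
    have e7 : 0 ≤ C1 ^ 2 * M ^ d := by positivity
    refine ⟨?_, ?_, ?_, ?_, ?_, ?_, ?_⟩ <;> linarith
  have hH0 : (0 : ℝ) < H := by linarith
  have hHn : 1 ≤ H := by exact_mod_cast hH1
  have h11 : (H : ℝ) ^ 11 ≤ T ^ 2 := (pow_le_pow_right₀ hH1 (by omega)).trans hHT
  have key : ∀ C : ℝ, 0 ≤ C → C ^ 2 ≤ H → C * (H : ℝ) ^ 5 ≤ T := by
    intro C hC0 hC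
    have e1 : (C * (H : ℝ) ^ 5) ^ 2 ≤ T ^ 2 := by
      calc (C * (H : ℝ) ^ 5) ^ 2 = C ^ 2 * (H : ℝ) ^ 10 := by ring
        _ ≤ H * (H : ℝ) ^ 10 := mul_le_mul_of_nonneg_right hC (by positivity)
        _ = (H : ℝ) ^ 11 := by ring
        _ ≤ T ^ 2 := h11
    exact le_of_sq_le_sq e1 hT0.le
  have key2 : ∀ C : ℝ, 0 ≤ C → C ^ 2 ≤ H → C * (H : ℝ) ^ 2 ≤ T := by
    intro C hC0 hC
    refine le_trans ?_ (key C hC0 hC)
    exact mul_le_mul_of_nonneg_left (pow_le_pow_right₀ hH1 (by norm_num)) hC0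
  have hT1 : 1 ≤ T := by
    have e1 := key C1 (by linarith) b1
    have e2 : 1 ≤ C1 * (H : ℝ) ^ 5 := one_le_mul_of_one_le_of_one_le hC1 (one_le_pow₀ hH1)
    linarith
  have hW3 : W ≤ A * H * T ^ (d - 3) := by
    refine hW.trans ?_
    apply mul_le_mul_of_nonneg_left _ (by positivity)
    exact pow_le_pow_right₀ hT1 (by omega)
  have hg := hG.th.one
  have hgp : (0 : ℝ) < |tc F θ d 1| := by linarith
  -- spacing
  have sp : ∀ p ∈ Ap d F θ A H T W, ∀ q ∈ Ap d F θ A H T W, p ≠ q →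
      p.1 ≠ q.1 ∧ T ^ 2 ≤ C1 * (H : ℝ) ^ 4 * |(p.1 : ℝ) - q.1| ^ d := by
    intro p hp q hq hne
    obtain ⟨e1, e2⟩ := hs H T W θ F hHn (key2 _ (by linarith) b1) hG hW0 hW3 p hp q hq hne
    refine ⟨e1, ?_⟩
    rcases e2 with e3 | e3
    · exact e3.2
    · exfalso
      rcases hr H T W θ F hHn (key _ (by linarith) b4) hG hW0 hW p hp q hq hne e3.1 with e4 | e4
      · exact hRS e4
      · exact hRD e4
  obtain ⟨e1, f1⟩ := sp p hp q hq npq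
  obtain ⟨e2, f2⟩ := sp q hq r hr' nqr
  obtain ⟨e3, f3⟩ := sp r hr' p hp nrp
  have hdet := hc H T W L θ F hHn (key2 _ (by linarith) b2) hG hW0 hW3 hL0 hL p hp q hq r hr'
    hpq hqr hrp
  have hdetR : ((p.2 : ℝ)) * ((q.1 : ℝ) - r.1) + q.2 * ((r.1 : ℝ) - p.1) +
      r.2 * ((p.1 : ℝ) - q.1) = 0 := by exact_mod_cast hdet
  obtain ⟨b, hb1, hb2, hb3, hb4, hb5⟩ : ∃ b : ℝ, 1 ≤ b ∧ b ≤ |(p.1 : ℝ) - q.1| ∧
      b ≤ |(q.1 : ℝ) - r.1| ∧ b ≤ |(r.1 : ℝ) - p.1| ∧ T ^ 2 ≤ C1 * (H : ℝ) ^ 4 * b ^ d := by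
    have g1 := one_le_abs' e1
    have g2 := one_le_abs' e2
    have g3 := one_le_abs' e3
    rcases le_total |(p.1 : ℝ) - q.1| |(q.1 : ℝ) - r.1| with h12 | h12
    · rcases le_total |(p.1 : ℝ) - q.1| |(r.1 : ℝ) - p.1| with h13 | h13
      · exact ⟨_, g1, le_rfl, h12, h13, f1⟩
      · exact ⟨_, g3, h13, h13.trans h12, le_rfl, f3⟩
    · rcases le_total |(q.1 : ℝ) - r.1| |(r.1 : ℝ) - p.1| with h23 | h23
      · exact ⟨_, g2, h12, le_rfl, h23, f2⟩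
      · exact ⟨_, g3, h23.trans h12, h23, le_rfl, f3⟩
  have hb0 : 0 < b := by linarith
  -- K
  obtain ⟨G, hGe⟩ : ∃ G : ℝ, G = |tc F θ d 1| := ⟨_, rfl⟩
  obtain ⟨K, hK⟩ : ∃ K : ℝ, K = A * H / G := ⟨_, rfl⟩
  have hG0 : 0 < G := by rw [hGe]; exact hgp
  have hK1 : 1 ≤ K := by
    rw [hK, hGe]; exact hG.k1
  have hK0 : 0 < K := by linarith
  have hKG : K * G = A * H := by
    rw [hK]
    field_simp
  have hK2 : K ≤ 16 * A * H := by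
    rw [hK, div_le_iff₀ hG0]
    have h3 : (0 : ℝ) ≤ A * H := by positivity
    have h4 : 1 ≤ 16 * G := by rw [hGe]; linarith
    have h5 := mul_le_mul_of_nonneg_left h4 h3
    linarith
  have hKsq : K ^ 2 ≤ 256 * A ^ 2 * H ^ 2 := by
    calc K ^ 2 ≤ (16 * A * H) ^ 2 := pow_le_pow_left₀ hK0.le hK2 2
      _ = _ := by ring
  have hK4 : K ^ 4 ≤ 65536 * A ^ 4 * H ^ 4 := by
    calc K ^ 4 ≤ (16 * A * H) ^ 4 := pow_le_pow_left₀ hK0.le hK2 4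
      _ = _ := by ring
  have hCK : C3 * K ^ 2 ≤ T := by
    have e5 := key2 C5 hC50.le b5
    refine le_trans ?_ e5
    rw [hC5]
    have e6 := mul_le_mul_of_nonneg_left hKsq (by linarith : 0 ≤ C3)
    linarith
  have hKA : K ≤ A * K := le_mul_of_one_le_left hK0.le hA
  have hbg : Bg d A K (nt d F θ) := by
    rw [hK, hGe]; exact hG.bg
  have hW' : 0 ≤ W / G := by positivity
  have hW4 : W / G ≤ K * T ^ (d - 4) := by
    rw [div_le_iff₀ hG0]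
    calc W ≤ A * H * T ^ (d - 4) := hW
      _ = (K * G) * T ^ (d - 4) := by rw [hKG]
      _ = _ := by ring
  have hW5 : W / G ≤ A * K * T ^ (d - 3) := by
    refine hW4.trans ?_
    exact mul_le_mul hKA (pow_le_pow_right₀ hT1 (by omega)) (by positivity) (by positivity)
  have up := hp.2.2.1
  have uq := hq.2.2.1
  have ur := hr'.2.2.1
  rw [← hGe, ← hK] at up uq ur
  have vp := val hTAY hG p hp.2.2.2
  have vq := val hTAY hG q hq.2.2.2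
  have vr := val hTAY hG r hr'.2.2.2
  rw [← hGe] at vp vq vr
  have hr3 := h3 K T (W / G) b (nt d F θ) hK1 hCK hbg hW' hW5 hb1 (p.1 : ℝ) (q.1 : ℝ) (r.1 : ℝ)
    ((p.2 : ℝ) - θ * p.1) ((q.2 : ℝ) - θ * q.1) ((r.2 : ℝ) - θ * r.1)
    hp.1 hp.2.1 hq.1 hq.2.1 hr'.1 hr'.2.1 hb2 hb3 hb4 (up.trans hKA) (uq.trans hKA) (ur.trans hKA)
    vp vq vr (by linear_combination hdetR)
  rw [rho_nt hgp, ← hGe, abs_div, abs_of_pos hG0, div_le_iff₀ hG0] at hr3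
  -- the two terms
  have t2 : W / G * T ^ 3 / (T ^ (d - 1) * b ^ 2) ≤ K / b ^ 2 := by
    rw [div_le_div_iff₀ (by positivity) (by positivity)]
    have e : T ^ (d - 1) = T ^ (d - 4) * T ^ 3 := by rw [← pow_add]; congr 1; omega
    rw [e]
    calc W / G * T ^ 3 * b ^ 2 ≤ K * T ^ (d - 4) * T ^ 3 * b ^ 2 := by
          apply mul_le_mul_of_nonneg_right _ (by positivity)
          exact mul_le_mul_of_nonneg_right hW4 (by positivity)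
      _ = _ := by ring
  have t3 : C3 * (K ^ 5 / T) * G ≤ 1 / 8 := by
    have e5 := key C6 hC60.le b6
    have e6 : C3 * (K ^ 5 / T) * G = (C3 * ((K * G) * K ^ 4)) / T := by ring
    rw [e6, hKG, div_le_iff₀ hT0]
    have e7 : A * H * K ^ 4 ≤ A * H * (65536 * A ^ 4 * H ^ 4) :=
      mul_le_mul_of_nonneg_left hK4 (by positivity)
    have e8 := mul_le_mul_of_nonneg_left e7 (by linarith : 0 ≤ C3)
    rw [hC6] at e5
    have e9 : C3 * (A * H * (65536 * A ^ 4 * H ^ 4)) = 65536 * C3 * A ^ 5 * (H : ℝ) ^ 5 := by ring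
    rw [e9] at e8
    linarith
  have t4 : 1 / 8 < C3 * (A * H / b ^ 2) := by
    have h5 : |rho d (tc F θ)| ≤ C3 * (K ^ 5 / T) * G + C3 * (A * H / b ^ 2) := by
      refine hr3.trans ?_
      have e5 : C3 * (K ^ 5 / T + W / G * T ^ 3 / (T ^ (d - 1) * b ^ 2)) * G ≤
          C3 * (K ^ 5 / T + K / b ^ 2) * G := by
        apply mul_le_mul_of_nonneg_right _ hG0.le
        exact mul_le_mul_of_nonneg_left (add_le_add le_rfl t2) (by linarith)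
      refine e5.trans (le_of_eq ?_)
      rw [← hKG]
      ring
    linarith
  have t5 : b ^ 2 < M * H := by
    have hb2' : 0 < b ^ 2 := by positivity
    rw [← mul_div_assoc, lt_div_iff₀ hb2'] at t4
    rw [hM]
    linarith
  have t6 : T ^ 4 ≤ C1 ^ 2 * (H : ℝ) ^ 8 * (M * H) ^ d := by
    have h6 : (T ^ 2) ^ 2 ≤ (C1 * (H : ℝ) ^ 4 * b ^ d) ^ 2 :=
      pow_le_pow_left₀ (by positivity) hb5 2
    have h7 : (b ^ 2) ^ d ≤ (M * H) ^ d := pow_le_pow_left₀ (by positivity) t5.le d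
    calc T ^ 4 = (T ^ 2) ^ 2 := by ring
      _ ≤ (C1 * (H : ℝ) ^ 4 * b ^ d) ^ 2 := h6
      _ = C1 ^ 2 * (H : ℝ) ^ 8 * (b ^ 2) ^ d := by ring
      _ ≤ C1 ^ 2 * (H : ℝ) ^ 8 * (M * H) ^ d := mul_le_mul_of_nonneg_left h7 (by positivity)
  have t7 : ((H : ℝ) ^ (2 * d - 3)) ^ 2 ≤ (T ^ 2) ^ 2 := pow_le_pow_left₀ (by positivity) hHT 2
  have t8 : (H : ℝ) ^ (3 * d - 14) * (H : ℝ) ^ (d + 8) ≤ (C1 ^ 2 * M ^ d) * (H : ℝ) ^ (d + 8) := by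
    have e1 : (H : ℝ) ^ (3 * d - 14) * (H : ℝ) ^ (d + 8) = ((H : ℝ) ^ (2 * d - 3)) ^ 2 := by
      rw [← pow_add, ← pow_mul]; congr 1; omega
    have e2 : (C1 ^ 2 * M ^ d) * (H : ℝ) ^ (d + 8) = C1 ^ 2 * (H : ℝ) ^ 8 * (M * H) ^ d := by
      rw [mul_pow, pow_add]; ring
    have e3 : (T ^ 2) ^ 2 = T ^ 4 := by ring
    rw [e1, e2]
    rw [e3] at t7
    exact t7.trans t6
  have t9 : (H : ℝ) ^ (3 * d - 14) ≤ C1 ^ 2 * M ^ d := le_of_mul_le_mul_right t8 (by positivity)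
  have t10 : (H : ℝ) ≤ (H : ℝ) ^ (3 * d - 14) := le_self_pow₀ hH1 (by omega)
  linarith

end Pool.Agent.Q38.UGT
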