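import Pool.Agent.Q256.UI.Stm

set_option autoImplicit false

/-! Project UI (helper256), job LCK: integers at which a polynomial is small. -/

namespace Pool.Agent.Q38.UI

open Finset
open Pool.Agent.Q256.UI

lemma lck_fin {d : ℕ} (hd : 1 ≤ d) (p : Polynomial ℤ) (hp : p.natDegree = d) {B : ℝ} (hB : 1 ≤ B)
    (F : Finset ℤ) (hF : ∀ t ∈ F, |((p.eval t : ℤ) : ℝ)| ≤ B) :
    (F.card : ℝ) ≤ d * (d + 2) * B ^ ((1 : ℝ) / d) := by
  obtain ⟨n, hn⟩ : ∃ n, F.card = n := ⟨_, rfl⟩
  obtain ⟨q, hq⟩ : ∃ q, q = (n - 1) / d := ⟨_, rfl⟩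
  have hd0 : (0 : ℝ) < d := by exact_mod_cast hd
  have hy1 : 1 ≤ B ^ ((1 : ℝ) / d) := Real.one_le_rpow hB (by positivity)
  have hnq : n ≤ d * (q + 1) := by
    have h1 := Nat.lt_mul_div_succ (n - 1) (show 0 < d by omega)
    rw [← hq] at h1
    omega
  have hnq' : (F.card : ℝ) ≤ d * (q + 1) := by
    rw [hn]; exact_mod_cast hnq
  have hqb : (q : ℝ) ≤ (d + 1) * B ^ ((1 : ℝ) / d) := by
    rcases Nat.eq_zero_or_pos q with h0 | h0
    · rw [h0, Nat.cast_zero]; positivity
    -- the nodes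
    have hlt : ∀ i : Fin (d + 1), i.1 * q < n := by
      intro i
      have h1 : i.1 * q ≤ d * q := Nat.mul_le_mul_right q (Nat.lt_succ_iff.1 i.2)
      have h2 : d * q ≤ n - 1 := by rw [hq]; exact Nat.mul_div_le _ _
      have h3 : 0 < n - 1 := by
        by_contra h4
        have h5 : n - 1 = 0 := by omega
        rw [h5, Nat.zero_div] at hq
        omega
      omega
    let e := F.orderEmbOfFin hn
    have hgap : ∀ m : ℕ, ∀ i j : Fin n, i.1 + m = j.1 → e i + (m : ℤ) ≤ e j := by
      intro m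
      induction m with
      | zero =>
        intro i j hij
        have : i = j := Fin.ext (by omega)
        rw [this]; simp
      | succ m ih =>
        intro i j hij
        have hk : i.1 + m < n := by have := j.2; omega
        have h1 := ih i ⟨i.1 + m, hk⟩ rfl
        have h2 : e ⟨i.1 + m, hk⟩ < e j := by
          apply (F.orderEmbOfFin hn).strictMono
          show i.1 + m < j.1
          omega
        push_cast
        omega
    let v : Fin (d + 1) → ℝ := fun i => (e ⟨i.1 * q, hlt i⟩ : ℝ)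
    have hsep : ∀ i j : Fin (d + 1), i < j → (q : ℝ) ≤ v j - v i := by
      intro i j hij
      have h1 : i.1 + 1 ≤ j.1 := hij
      have h2 : (i.1 + 1) * q ≤ j.1 * q := Nat.mul_le_mul_right q h1
      have h3 := hgap (j.1 * q - i.1 * q) ⟨i.1 * q, hlt i⟩ ⟨j.1 * q, hlt j⟩ (by
        show i.1 * q + (j.1 * q - i.1 * q) = j.1 * q
        have : i.1 * q ≤ j.1 * q := by nlinarith
        omega)
      have h4 : (q : ℤ) ≤ ((j.1 * q - i.1 * q : ℕ) : ℤ) := by
        have : q ≤ j.1 * q - i.1 * q := by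
          rw [add_mul, one_mul] at h2
          omega
        exact_mod_cast this
      have h5 : (e ⟨i.1 * q, hlt i⟩ : ℤ) + q ≤ e ⟨j.1 * q, hlt j⟩ := by linarith
      have h6 : ((e ⟨i.1 * q, hlt i⟩ : ℤ) : ℝ) + q ≤ ((e ⟨j.1 * q, hlt j⟩ : ℤ) : ℝ) := by exact_mod_cast h5
      show (q : ℝ) ≤ ((e ⟨j.1 * q, hlt j⟩ : ℤ) : ℝ) - ((e ⟨i.1 * q, hlt i⟩ : ℤ) : ℝ)
      linarith
    have hq0 : (0 : ℝ) < q := by exact_mod_cast h0
    have habs : ∀ i j : Fin (d + 1), i ≠ j → (q : ℝ) ≤ |v i - v j| := by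
      intro i j hij
      rcases lt_or_gt_of_ne hij with h | h
      · have := hsep i j h
        rw [abs_sub_comm]
        exact this.trans (le_abs_self _)
      · exact (hsep j i h).trans (le_abs_self _)
    have hinj : Set.InjOn v ((univ : Finset (Fin (d + 1))) : Set (Fin (d + 1))) := by
      intro i _ j _ hij
      by_contra hne
      have := habs i j hne
      rw [hij, sub_self, abs_zero] at this
      linarith
    have hp0 : p ≠ 0 := by
      intro h
      rw [h, Polynomial.natDegree_zero] at hp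
      omega
    set P : Polynomial ℝ := p.map (Int.castRingHom ℝ) with hP
    have hdeg : P.degree < ((univ : Finset (Fin (d + 1))).card : ℕ) := by
      rw [card_univ, Fintype.card_fin]
      refine (Polynomial.degree_le_natDegree).trans_lt ?_
      have : P.natDegree ≤ d := by
        rw [← hp]; exact Polynomial.natDegree_map_le
      exact_mod_cast Nat.lt_succ_of_le this
    have hcoef := Lagrange.coeff_eq_sum hinj hdeg
    rw [card_univ, Fintype.card_fin, Nat.add_sub_cancel] at hcoef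
    have hl : 1 ≤ |P.coeff d| := by
      rw [hP, Polynomial.coeff_map]
      have h1 : p.coeff d ≠ 0 := by
        rw [← hp]
        exact Polynomial.leadingCoeff_ne_zero.2 hp0
      have h2 : (1 : ℤ) ≤ |p.coeff d| := Int.one_le_abs h1
      have h3 : (Int.castRingHom ℝ) (p.coeff d) = ((p.coeff d : ℤ) : ℝ) := rfl
      rw [h3, ← Int.cast_abs]
      exact_mod_cast h2
    have hterm : ∀ i ∈ (univ : Finset (Fin (d + 1))),
        |P.eval (v i) / ∏ j ∈ univ.erase i, (v i - v j)| ≤ B / (q : ℝ) ^ d := by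
      intro i _
      rw [abs_div]
      have h1 : |P.eval (v i)| ≤ B := by
        have h2 : P.eval (v i) = ((p.eval (e ⟨i.1 * q, hlt i⟩) : ℤ) : ℝ) := by
          rw [hP]
          exact Polynomial.eval_intCast_map (Int.castRingHom ℝ) p (e ⟨i.1 * q, hlt i⟩)
        rw [h2]
        exact hF _ (Finset.orderEmbOfFin_mem F hn _)
      have h2 : (q : ℝ) ^ d ≤ |∏ j ∈ univ.erase i, (v i - v j)| := by
        rw [abs_prod]
        have h3 : (univ.erase i : Finset (Fin (d + 1))).card = d := by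
          rw [card_erase_of_mem (mem_univ i), card_univ, Fintype.card_fin, Nat.add_sub_cancel]
        have h4 : ∏ j ∈ (univ.erase i : Finset (Fin (d + 1))), (q : ℝ) = (q : ℝ) ^ d := by
          rw [prod_const, h3]
        rw [← h4]
        exact prod_le_prod (fun _ _ => hq0.le) fun j hj => habs i j (ne_of_mem_erase hj).symm
      have h4 : (0 : ℝ) < (q : ℝ) ^ d := by positivity
      exact div_le_div₀ (by linarith) h1 h4 h2
    have hsum : |P.coeff d| ≤ (d + 1) * (B / (q : ℝ) ^ d) := by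
      rw [hcoef]
      refine (abs_sum_le_sum_abs _ _).trans ((sum_le_sum hterm).trans (le_of_eq ?_))
      rw [sum_const, card_univ, Fintype.card_fin, nsmul_eq_mul]
      push_cast
      rfl
    have hqd : (q : ℝ) ^ d ≤ (d + 1) * B := by
      have h1 : 1 ≤ (d + 1) * (B / (q : ℝ) ^ d) := hl.trans hsum
      have h2 : (0 : ℝ) < (q : ℝ) ^ d := by positivity
      rw [← mul_div_assoc, le_div_iff₀ h2, one_mul] at h1
      exact h1
    have hdne : (d : ℝ) ≠ 0 := hd0.ne'
    calc (q : ℝ) = ((q : ℝ) ^ d) ^ ((1 : ℝ) / d) := by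
          rw [← Real.rpow_natCast, ← Real.rpow_mul hq0.le, mul_one_div_cancel hdne, Real.rpow_one]
      _ ≤ ((d + 1) * B) ^ ((1 : ℝ) / d) := Real.rpow_le_rpow (by positivity) hqd (by positivity)
      _ = (d + 1 : ℝ) ^ ((1 : ℝ) / d) * B ^ ((1 : ℝ) / d) := Real.mul_rpow (by positivity) (by linarith)
      _ ≤ (d + 1 : ℝ) ^ (1 : ℝ) * B ^ ((1 : ℝ) / d) := by
          refine mul_le_mul_of_nonneg_right ?_ (by positivity)
          refine Real.rpow_le_rpow_of_exponent_le (by linarith) ?_
          rw [div_le_one hd0]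
          exact_mod_cast hd
      _ = _ := by rw [Real.rpow_one]
  calc (F.card : ℝ) ≤ d * (q + 1) := hnq'
    _ ≤ d * ((d + 1) * B ^ ((1 : ℝ) / d) + B ^ ((1 : ℝ) / d)) := by gcongr
    _ = _ := by ring

theorem lck : S_LCK := by
  intro d hd
  have hd0 : (1 : ℝ) ≤ d := by exact_mod_cast hd
  refine ⟨d * (d + 2), by nlinarith, fun p hp B hB => ?_⟩
  set S : Set ℤ := {t : ℤ | |((p.eval t : ℤ) : ℝ)| ≤ B} with hS
  have hfin : S.Finite := by
    by_contra hinf
    obtain ⟨N, hN⟩ := exists_nat_gt ((d : ℝ) * (d + 2) * B ^ ((1 : ℝ) / d))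
    obtain ⟨t, ht, hc⟩ := Set.Infinite.exists_subset_card_eq hinf N
    have h1 := lck_fin hd p hp hB t (fun x hx => ht hx)
    rw [hc] at h1
    linarith
  refine ⟨hfin, ?_⟩
  have h1 := lck_fin hd p hp hB hfin.toFinset (fun x hx => (hfin.mem_toFinset.1 hx))
  rw [Set.ncard_eq_toFinset_card S hfin]
  exact h1

end Pool.Agent.Q38.UI
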