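import Pool.Agent.Q256.UI.Stm

set_option autoImplicit false

/-! Project UI (helper256), job CND: integer points near the asymptote, nondegenerate case. -/

namespace Pool.Agent.Q38.UI

open Finset MvPolynomial
open Pool.Agent.Q256.UI

/-- a set without three different points has at most two elements -/
lemma two_le {α : Type} {S : Set α}
    (h : ∀ p ∈ S, ∀ q ∈ S, ∀ r ∈ S, p ≠ q → q ≠ r → r ≠ p → False) : S.Finite ∧ S.ncard ≤ 2 := by
  classical
  by_cases h1 : ∃ p ∈ S, ∃ q ∈ S, p ≠ q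
  · obtain ⟨p, hp, q, hq, hpq⟩ := h1
    have hsub : S ⊆ {p, q} := by
      intro r hr
      by_contra hne
      rw [Set.mem_insert_iff, Set.mem_singleton_iff, not_or] at hne
      exact h p hp q hq r hr hpq (Ne.symm hne.2) hne.1
    have hf : ({p, q} : Set α).Finite := Set.toFinite _
    exact ⟨hf.subset hsub, (Set.ncard_le_ncard hsub hf).trans (Set.ncard_pair hpq).le⟩
  · push Not at h1
    have hs : S.Subsingleton := fun p hp q hq => h1 p hp q hq
    have hf : S.Finite := hs.finite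
    refine ⟨hf, ?_⟩
    have h2 : S.ncard ≤ 1 := (Set.ncard_le_one hf).2 fun a ha b hb => hs ha hb
    omega

theorem cnd : S_TWO → S_WND → S_CND := by
  intro hT hW d A hd hA
  obtain ⟨c, H0, hc, hH0, h2⟩ := hT d A hd hA
  -- the constant
  obtain ⟨c', hc'0, hc'1, hc'c⟩ : ∃ c' : ℝ, 0 < c' ∧ c' ≤ 1 ∧ c' ^ 3 ≤ c := by
    refine ⟨min 1 c, lt_min one_pos hc, min_le_left _ _, ?_⟩
    have i0 : 0 < min 1 c := lt_min one_pos hc
    have i1 : min 1 c ≤ 1 := min_le_left _ _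
    have i2 : min 1 c ≤ c := min_le_right _ _
    calc (min 1 c) ^ 3 ≤ (min 1 c) ^ 1 := pow_le_pow_of_le_one i0.le i1 (by norm_num)
      _ ≤ c := by rw [pow_one]; exact i2
  refine ⟨4 / c', H0, ?_, hH0, ?_⟩
  · rw [le_div_iff₀ hc'0]; linarith
  intro H T W θ a hH hHT hBd hLio hW0 hW1 hrho
  have hH1 : 1 ≤ H := hH0.trans hH
  have hH00 : 0 < H := by linarith
  have hT0 : 0 < T := lt_of_lt_of_le (by positivity) hHT
  set y : ℝ := H ^ ((2 : ℝ) / 3) with hy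
  have hy1 : 1 ≤ y := Real.one_le_rpow hH1 (by norm_num)
  have hy0 : 0 < y := by linarith
  have hy3 : y ^ 3 = H ^ 2 := by
    rw [hy, ← Real.rpow_natCast, ← Real.rpow_mul hH00.le]
    norm_num
  set L : ℝ := c' * T / y with hL
  have hL0 : 0 < L := by positivity
  have hLT : L ≤ T := by
    rw [hL, div_le_iff₀ hy0]
    nlinarith
  have hL3 : L ^ 3 * H ^ 2 ≤ c * T ^ 3 := by
    rw [hL, div_pow, hy3, mul_pow]
    have : H ^ 2 ≠ 0 := by positivity
    rw [div_mul_cancel₀ _ this]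
    exact mul_le_mul_of_nonneg_right hc'c (by positivity)
  have h3 := h2 H T W L θ a hH hHT hBd hLio hW0 hW1 hL0.le hL3 hrho
  have h4 := hW (Ap d a θ A H T W) T L 2 hL0 hLT zero_le_two (fun p hp => ⟨hp.1, hp.2.1⟩) (fun X => ?_)
  · refine ⟨h4.1, h4.2.trans (le_of_eq ?_)⟩
    rw [hL]
    field_simp
    ring
  · have h5 : ∀ p q : ℤ × ℤ, (X ≤ (p.1 : ℝ) ∧ (p.1 : ℝ) ≤ X + L) → (X ≤ (q.1 : ℝ) ∧ (q.1 : ℝ) ≤ X + L) →
        |(p.1 : ℝ) - q.1| ≤ L := by
      intro p q hp hq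
      rw [abs_le]
      constructor <;> linarith [hp.1, hp.2, hq.1, hq.2]
    obtain ⟨i1, i2⟩ := two_le (S := {p | p ∈ Ap d a θ A H T W ∧ X ≤ (p.1 : ℝ) ∧ (p.1 : ℝ) ≤ X + L})
      (fun p hp q hq r hr n1 n2 n3 => h3 p hp.1 q hq.1 r hr.1 (h5 p q hp.2 hq.2) (h5 q r hq.2 hr.2)
        (h5 r p hr.2 hp.2) n1 n2 n3)
    exact ⟨i1, by exact_mod_cast i2⟩

end Pool.Agent.Q38.UI
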