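import Pool.Agent.Q256.UI.Stm

set_option autoImplicit false

/-! Project UI (helper256), job NZR: an irreducible form has no zeros. -/

namespace Pool.Agent.Q38.UI

open Finset MvPolynomial
open Pool.Agent.Q256.UI

lemma scale {G : MvPolynomial (Fin 2) ℚ} {d : ℕ} (hG : G.IsHomogeneous d) (r : ℚ) (c : Fin 2 → ℚ) :
    eval (fun j => r * c j) G = r ^ d * eval c G := by
  rw [eval_eq, eval_eq, Finset.mul_sum]
  refine Finset.sum_congr rfl fun m hm => ?_
  have h1 : m.degree = d := by
    have := hG (mem_support_iff.1 hm)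
    rw [Finsupp.degree_eq_weight_one]
    exact this
  simp only [mul_pow, Finset.prod_mul_distrib]
  rw [Finset.prod_pow_eq_pow_sum]
  have h2 : ∑ i ∈ m.support, m i = d := by rw [← h1]; rfl
  rw [h2]
  ring

lemma dvd_of_zero {G : MvPolynomial (Fin 2) ℚ} {d : ℕ} (hG : G.IsHomogeneous d) (c : Fin 2 → ℚ)
    (hc : eval c G = 0) (i k : Fin 2) (hik : ∀ j, j = i ∨ j = k) (hci : c i ≠ 0) :
    (X k - C (c k / c i) * X i) ∣ G := by
  rw [← Ideal.mem_span_singleton]
  set I : Ideal (MvPolynomial (Fin 2) ℚ) := Ideal.span {X k - C (c k / c i) * X i} with hI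
  let w : Fin 2 → MvPolynomial (Fin 2) ℚ := fun j => C (c j / c i) * X i
  have h1 : (Ideal.Quotient.mkₐ ℚ I) = (Ideal.Quotient.mkₐ ℚ I).comp (aeval w) := by
    apply MvPolynomial.algHom_ext
    intro j
    rw [AlgHom.comp_apply, aeval_X]
    show Ideal.Quotient.mk I (X j) = Ideal.Quotient.mk I (w j)
    rw [Ideal.Quotient.eq]
    rcases hik j with h | h
    · subst h
      simp only [w]
      rw [div_self hci, C_1, one_mul, sub_self]
      exact I.zero_mem
    · subst h
      exact Ideal.subset_span rfl
  have h2 : aeval w G = 0 := by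
    apply MvPolynomial.funext
    intro s
    rw [map_zero]
    have h3 : eval s (aeval w G) = eval (fun j => eval s (w j)) G := by
      have h6 : (eval s).comp ((aeval w : MvPolynomial (Fin 2) ℚ →ₐ[ℚ] MvPolynomial (Fin 2) ℚ) :
          MvPolynomial (Fin 2) ℚ →+* MvPolynomial (Fin 2) ℚ) = eval (fun j => eval s (w j)) := by
        apply MvPolynomial.ringHom_ext
        · intro r
          rw [RingHom.comp_apply, RingHom.coe_coe, ← algebraMap_eq, AlgHom.commutes, algebraMap_eq, eval_C, eval_C]
        · intro j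
          rw [RingHom.comp_apply, RingHom.coe_coe, aeval_X, eval_X]
      exact DFunLike.congr_fun h6 G
    rw [h3]
    have h4 : (fun j => eval s (w j)) = fun j => (s i / c i) * c j := by
      funext j
      simp only [w, map_mul, eval_C, eval_X]
      ring
    rw [h4, scale hG, hc, mul_zero]
  have h5 : Ideal.Quotient.mk I G = 0 := by
    have := DFunLike.congr_fun h1 G
    rw [AlgHom.comp_apply, h2, map_zero] at this
    exact this
  exact Ideal.Quotient.eq_zero_iff_mem.1 h5

theorem nzr : S_NZR := by
  intro d Φ hd hL a b hab h0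
  set G : MvPolynomial (Fin 2) ℚ := MvPolynomial.map (Int.castRingHom ℚ) Φ with hG
  have hGh : G.IsHomogeneous d := hL.hom.map _
  have hirr : Irreducible G := hL.irr
  let c : Fin 2 → ℚ := ![(b : ℚ), (a : ℚ)]
  have hc : eval c G = 0 := by
    have h1 : eval c G = ((eval ![b, a] Φ : ℤ) : ℚ) := by
      have h2 : c = fun j => (Int.castRingHom ℚ) ((![b, a] : Fin 2 → ℤ) j) := by
        funext j
        fin_cases j <;> rfl
      rw [h2, hG, eval_map]
      have := MvPolynomial.eval₂_comp_left (Int.castRingHom ℚ) (RingHom.id ℤ) ![b, a] Φ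
      rw [RingHom.comp_id] at this
      exact this.symm
    rw [h1, h0, Int.cast_zero]
  have key : ∀ i k : Fin 2, (∀ j, j = i ∨ j = k) → i ≠ k → c i ≠ 0 → False := by
    intro i k hik hne hci
    obtain ⟨h, hh⟩ := dvd_of_zero hGh c hc i k hik hci
    set l : MvPolynomial (Fin 2) ℚ := X k - C (c k / c i) * X i with hl
    have hlh : l.IsHomogeneous 1 := by
      refine (isHomogeneous_X ℚ k).sub ?_
      have := (isHomogeneous_C (Fin 2) (c k / c i)).mul (isHomogeneous_X ℚ i)
      rwa [zero_add] at this
    have hG0 : G ≠ 0 := hirr.ne_zero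
    have hl0 : l ≠ 0 := fun h1 => hG0 (by rw [hh, h1, zero_mul])
    have hlt : l.totalDegree = 1 := hlh.totalDegree hl0
    have hGt : G.totalDegree = d := hGh.totalDegree hG0
    rcases hirr.isUnit_or_isUnit hh with hu | hu
    · have := (isUnit_iff_totalDegree_of_isReduced.1 hu).2
      omega
    · have h1 := (isUnit_iff_totalDegree_of_isReduced.1 hu).2
      have h2 := totalDegree_mul l h
      rw [← hh] at h2
      omega
  rcases hab with h | h
  · exact key 1 0 (by intro j; fin_cases j <;> simp) (by decide) (by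
      show (a : ℚ) ≠ 0
      exact_mod_cast h)
  · exact key 0 1 (by intro j; fin_cases j <;> simp) (by decide) (by
      show (b : ℚ) ≠ 0
      exact_mod_cast h)

end Pool.Agent.Q38.UI
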