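import Pool.Agent.Q37.GU.Stm
import Pool.Agent.W904.PG.T1

/-! Job Q4a of project GU (helper37). -/

open CategoryTheory CategoryTheory.Limits AlgebraicGeometry Topology
open scoped TensorProduct

namespace Q38.GU_Q4a

open Pool.Agent.Q37.GU Pool.Agent.W481

/-- push-out of a finite étale algebra -/
lemma push (K P R' D C : Type) [CommRing K] [CommRing P] [CommRing R'] [CommRing D] [CommRing C]
    [Algebra K R'] [Algebra K C] [Algebra P D] [Algebra.Etale P D]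
    [Module.Finite P D] (ρ : P →+* R') (κ₁ : R' →ₐ[K] C) (j₀ : D →+* C)
    (hc : ∀ p, κ₁ (ρ p) = j₀ (algebraMap P D p)) :
    ∃ (C' : Type) (_ : CommRing C') (_ : Algebra K C') (_ : Algebra R' C')
      (_ : IsScalarTower K R' C') (_ : Algebra.Etale R' C') (_ : Module.Finite R' C')
      (δ : D →+* C') (κ : C' →ₐ[K] C),
      (∀ p, δ (algebraMap P D p) = algebraMap R' C' (ρ p)) ∧
      (∀ d, κ (δ d) = j₀ d) ∧ ∀ r, κ (algebraMap R' C' r) = κ₁ r := by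
  letI : Algebra P R' := ρ.toAlgebra
  letI : Algebra P C := (j₀.comp (algebraMap P D)).toAlgebra
  let κ₂ : R' →ₐ[P] C := { κ₁.toRingHom with commutes' := fun p => hc p }
  let j₁ : D →ₐ[P] C := { j₀ with commutes' := fun p => rfl }
  let κ₃ : R' ⊗[P] D →ₐ[P] C := Algebra.TensorProduct.lift κ₂ j₁ (fun _ _ => Commute.all _ _)
  have hκ : ∀ r, κ₃ (algebraMap R' (R' ⊗[P] D) r) = κ₁ r := by
    intro r
    have : algebraMap R' (R' ⊗[P] D) r = r ⊗ₜ 1 := rfl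
    rw [this, Algebra.TensorProduct.lift_tmul, map_one, mul_one]
    rfl
  refine ⟨R' ⊗[P] D, inferInstance, inferInstance, inferInstance, inferInstance, inferInstance,
    inferInstance, (Algebra.TensorProduct.includeRight : D →ₐ[P] R' ⊗[P] D).toRingHom,
    { κ₃.toRingHom with commutes' := fun k => ?_ }, ?_, ?_, ?_⟩
  · have : algebraMap K (R' ⊗[P] D) k = algebraMap R' (R' ⊗[P] D) (algebraMap K R' k) := rfl
    rw [this]
    exact (hκ _).trans (κ₁.commutes k)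
  · intro p
    have h1 : algebraMap R' (R' ⊗[P] D) (ρ p) = algebraMap P R' p ⊗ₜ 1 := rfl
    rw [h1]
    exact (Algebra.TensorProduct.algebraMap_apply' (R := P) (A := R') (B := D) p).symm.trans
      (Algebra.TensorProduct.algebraMap_apply (R := P) (A := R') (B := D) p)
  · intro d
    change κ₃ (1 ⊗ₜ d) = j₀ d
    rw [Algebra.TensorProduct.lift_tmul, map_one, one_mul]
    rfl
  · exact hκ

lemma notconst (R : Type) [CommRing R] [Algebra Qb R] (ι : R →ₐ[Qb] ℂ) (m : R) (μ : ℂ)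
    (hμ : Transcendental ℚ μ) (hm : ι m = μ) (c : ℂ) :
    (1 : ℂ) ⊗ₜ[Qb] m ≠ algebraMap ℂ (ℂ ⊗[Qb] R) c := by
  intro hc
  have h1 : m ∉ Submodule.span Qb {(1 : R)} := by
    intro hmem
    obtain ⟨q, hq⟩ := Submodule.mem_span_singleton.1 hmem
    apply hμ
    rw [← hm, ← hq, map_smul, map_one, Algebra.smul_def, mul_one]
    exact mem_algebraicClosure_iff.1 q.2
  obtain ⟨f, hf, hf2⟩ := Submodule.exists_dual_map_eq_bot_of_notMem h1 inferInstance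
  have hf1 : f 1 = 0 := by
    have : f 1 ∈ (Submodule.span Qb {(1 : R)}).map f :=
      Submodule.mem_map_of_mem (Submodule.subset_span rfl)
    rw [hf2] at this
    exact this
  have h2 := congrArg (fun z => TensorProduct.rid Qb ℂ (LinearMap.lTensor ℂ f z)) hc
  have h3 : algebraMap ℂ (ℂ ⊗[Qb] R) c = c ⊗ₜ 1 := rfl
  rw [h3] at h2
  simp only [LinearMap.lTensor_tmul, TensorProduct.rid_tmul, hf1, zero_smul] at h2
  rw [Algebra.smul_def, mul_one] at h2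
  apply hf
  exact (algebraMap Qb ℂ).injective (by rw [h2, map_zero])

/-- **JOB Q4a** -/
theorem q4a (h : S_Q3) : S_Q4a := by
  intro μ hμ A0 _ _ C _ _ _ _ _ _ u hu hu1 huμ
  have hal : ∀ c : ℂ, algebraMap (ℂ ⊗[Qb] A0) C (c ⊗ₜ 1) = algebraMap ℂ C c := by
    intro c
    rw [IsScalarTower.algebraMap_apply ℂ (ℂ ⊗[Qb] A0) C]
    rfl
  obtain ⟨R, _, _, _, _, ι, hι, m, hm, D, _, _, _, _, w, hw, hw1, hwm, j₀, hj₀w, hj₀⟩ :=
    h μ A0 C u hu hu1 (by rwa [hal])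
  haveI : IsAlgClosed Qb := (algebraicClosure.isAlgClosure ℚ ℂ).isAlgClosed
  haveI : IsDomain (ℂ ⊗[Qb] R) := Pool.Agent.W904.PG.dom
  let y₀ : (ℂ ⊗[Qb] R) →ₐ[ℂ] ℂ :=
    Algebra.TensorProduct.lift (AlgHom.id ℂ ℂ) ι (fun _ _ => Commute.all _ _)
  have hy₀ : ∀ (c : ℂ) (r : R), y₀ (c ⊗ₜ r) = c * ι r := fun c r =>
    Algebra.TensorProduct.lift_tmul _ _ _ _ _
  let i : (ℂ ⊗[Qb] A0) →ₐ[ℂ] (ℂ ⊗[Qb] A0) ⊗[ℂ] (ℂ ⊗[Qb] R) := Algebra.TensorProduct.includeLeft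
  let j : (ℂ ⊗[Qb] R) →ₐ[ℂ] (ℂ ⊗[Qb] A0) ⊗[ℂ] (ℂ ⊗[Qb] R) := Algebra.TensorProduct.includeRight
  let ρ₁ : R →ₐ[Qb] (ℂ ⊗[Qb] A0) ⊗[ℂ] (ℂ ⊗[Qb] R) :=
    (j.restrictScalars Qb).comp Algebra.TensorProduct.includeRight
  let ρ₂ : A0 →ₐ[Qb] (ℂ ⊗[Qb] A0) ⊗[ℂ] (ℂ ⊗[Qb] R) :=
    (i.restrictScalars Qb).comp Algebra.TensorProduct.includeRight
  let ρ : R ⊗[Qb] A0 →ₐ[Qb] (ℂ ⊗[Qb] A0) ⊗[ℂ] (ℂ ⊗[Qb] R) :=
    Algebra.TensorProduct.lift ρ₁ ρ₂ (fun a b => mul_comm (ρ₁ a) (ρ₂ b))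
  have hρ : ∀ (r : R) (a : A0), ρ (r ⊗ₜ a) = j (1 ⊗ₜ r) * i (1 ⊗ₜ a) := fun r a =>
    Algebra.TensorProduct.lift_tmul _ _ _ _ _
  let κ₁ : (ℂ ⊗[Qb] A0) ⊗[ℂ] (ℂ ⊗[Qb] R) →ₐ[ℂ] C :=
    Algebra.TensorProduct.lift (IsScalarTower.toAlgHom ℂ (ℂ ⊗[Qb] A0) C)
      ((Algebra.ofId ℂ C).comp y₀) (fun _ _ => Commute.all _ _)
  have hκi : ∀ a, κ₁ (i a) = algebraMap (ℂ ⊗[Qb] A0) C a := by
    intro a
    have : i a = a ⊗ₜ 1 := rfl
    rw [this, Algebra.TensorProduct.lift_tmul, map_one, mul_one]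
    rfl
  have hκj : ∀ b, κ₁ (j b) = algebraMap ℂ C (y₀ b) := by
    intro b
    have : j b = 1 ⊗ₜ b := rfl
    rw [this, Algebra.TensorProduct.lift_tmul, map_one, one_mul]
    rfl
  have hcomm : ∀ p : R ⊗[Qb] A0, κ₁ (ρ p) = j₀ (algebraMap (R ⊗[Qb] A0) D p) := by
    intro p
    rw [hj₀]
    induction p using TensorProduct.induction_on with
    | zero => simp
    | add x y hx hy => rw [map_add, map_add, hx, hy, map_add, map_add]
    | tmul r a =>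
      rw [hρ, map_mul, hκi, hκj, hy₀, one_mul, Algebra.TensorProduct.map_tmul, AlgHom.id_apply,
        ← hal, ← map_mul, Algebra.TensorProduct.tmul_mul_tmul, mul_one, one_mul]
  obtain ⟨C', _, _, _, _, _, _, δ, κ, hδ, hκδ, hκ⟩ :=
    push ℂ (R ⊗[Qb] A0) ((ℂ ⊗[Qb] A0) ⊗[ℂ] (ℂ ⊗[Qb] R)) D C ρ.toRingHom κ₁ j₀ hcomm
  refine ⟨ℂ ⊗[Qb] R, (ℂ ⊗[Qb] A0) ⊗[ℂ] (ℂ ⊗[Qb] R), C', inferInstance, inferInstance,
    inferInstance, inferInstance, inferInstance, inferInstance, inferInstance, inferInstance,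
    inferInstance, inferInstance, inferInstance, inferInstance, i, j, ?_, δ w, 1 ⊗ₜ m, hw.map δ,
    ?_, ?_, notconst R ι m μ hμ hm, κ, y₀, ?_, ?_, ?_, ?_⟩
  · have : (Algebra.TensorProduct.lift i j (fun a b => mul_comm (i a) (j b)) :
      (ℂ ⊗[Qb] A0) ⊗[ℂ] (ℂ ⊗[Qb] R) →ₐ[ℂ] (ℂ ⊗[Qb] A0) ⊗[ℂ] (ℂ ⊗[Qb] R)) = AlgHom.id ℂ _ := by
      apply Algebra.TensorProduct.ext'
      intro a b
      rw [Algebra.TensorProduct.lift_tmul]
      change (a ⊗ₜ 1) * (1 ⊗ₜ b) = a ⊗ₜ b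
      rw [Algebra.TensorProduct.tmul_mul_tmul, mul_one, one_mul]
    rw [this]
    exact Function.bijective_id
  · have := hw1.map δ
    rwa [map_sub, map_one] at this
  · have := hwm.map δ
    rw [map_sub, hδ] at this
    have h2 : ρ.toRingHom (m ⊗ₜ 1) = j (1 ⊗ₜ m) := by
      change ρ (m ⊗ₜ 1) = _
      rw [hρ]
      have h3 : i ((1 : ℂ) ⊗ₜ[Qb] (1 : A0)) = 1 := rfl
      rw [h3]
      exact mul_one (j (1 ⊗ₜ m))
    rwa [h2] at this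
  · rw [hκδ, hj₀w]
  · change y₀ (1 ⊗ₜ m) = μ
    rw [hy₀, one_mul, hm]
  · intro a
    rw [hκ, hκi]
  · intro b
    rw [hκ, hκj]
    rfl

end Q38.GU_Q4a
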