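import Mathlib

/-!
# Contact equivalence of pairs of power series in two variables

`ContactEquiv f g` is the contact equivalence of two pairs `f, g ∈ F[[x, y]]^2`:
`g = U · φ(f)` with `U ∈ GL(2, F[[x,y]])` and `φ` an `F`-algebra automorphism of `F[[x,y]]`.
The file provides substitution automorphisms and a criterion for contact equivalence.
-/

namespace Pool.Agent.Q38.ContactPlane

open MvPowerSeries

variable {F : Type*} [Field F]

/-- `f = (f_1, f_2)` and `g = (g_1, g_2)` are contact equivalent: `g = U · φ(f)` for some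
`U ∈ GL(2, F[[x,y]])` and some `F`-algebra automorphism `φ` of `F[[x,y]]`. -/
def ContactEquiv (f g : Fin 2 → MvPowerSeries (Fin 2) F) : Prop :=
  ∃ (U : GL (Fin 2) (MvPowerSeries (Fin 2) F))
    (φ : MvPowerSeries (Fin 2) F ≃ₐ[F] MvPowerSeries (Fin 2) F),
    g = (U : Matrix (Fin 2) (Fin 2) (MvPowerSeries (Fin 2) F)).mulVec fun i => φ (f i)

lemma hasSubst_of {a : Fin 2 → MvPowerSeries (Fin 2) F} (ha : ∀ i, constantCoeff (a i) = 0) :
    HasSubst a := hasSubst_of_constantCoeff_zero ha

/-- The automorphism of `F[[x,y]]` given by two inverse substitutions. -/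
noncomputable def substEquiv (a b : Fin 2 → MvPowerSeries (Fin 2) F)
    (ha : ∀ i, constantCoeff (a i) = 0) (hb : ∀ i, constantCoeff (b i) = 0)
    (hab : ∀ i, subst a (b i) = X i) (hba : ∀ i, subst b (a i) = X i) :
    MvPowerSeries (Fin 2) F ≃ₐ[F] MvPowerSeries (Fin 2) F :=
  AlgEquiv.ofAlgHom (substAlgHom (hasSubst_of ha)) (substAlgHom (hasSubst_of hb))
    (by
      ext1 f
      rw [AlgHom.comp_apply, substAlgHom_comp_substAlgHom_apply, substAlgHom_apply]
      have : (fun s => substAlgHom (R := F) (hasSubst_of ha) (b s)) =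
          (X : Fin 2 → MvPowerSeries (Fin 2) F) := by
        funext s
        rw [substAlgHom_apply, hab]
      rw [this, subst_self]
      rfl)
    (by
      ext1 f
      rw [AlgHom.comp_apply, substAlgHom_comp_substAlgHom_apply, substAlgHom_apply]
      have : (fun s => substAlgHom (R := F) (hasSubst_of hb) (a s)) =
          (X : Fin 2 → MvPowerSeries (Fin 2) F) := by
        funext s
        rw [substAlgHom_apply, hba]
      rw [this, subst_self]
      rfl)

lemma substEquiv_apply (a b : Fin 2 → MvPowerSeries (Fin 2) F)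
    (ha : ∀ i, constantCoeff (a i) = 0) (hb : ∀ i, constantCoeff (b i) = 0)
    (hab : ∀ i, subst a (b i) = X i) (hba : ∀ i, subst b (a i) = X i)
    (f : MvPowerSeries (Fin 2) F) :
    substEquiv a b ha hb hab hba f = subst a f := by
  show substAlgHom (hasSubst_of ha) f = _
  rw [substAlgHom_apply]

lemma substEquiv_X (a b : Fin 2 → MvPowerSeries (Fin 2) F)
    (ha : ∀ i, constantCoeff (a i) = 0) (hb : ∀ i, constantCoeff (b i) = 0)
    (hab : ∀ i, subst a (b i) = X i) (hba : ∀ i, subst b (a i) = X i) (i : Fin 2) :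
    substEquiv a b ha hb hab hba (X i) = a i := by
  rw [substEquiv_apply, subst_X (hasSubst_of ha)]

lemma algEquiv_C (φ : MvPowerSeries (Fin 2) F ≃ₐ[F] MvPowerSeries (Fin 2) F) (c : F) :
    φ (C c) = C c := φ.commutes c

/-- `m · (g_1, g_2)`, `m = (x, y)` the maximal ideal. -/
noncomputable def mIdeal (g : Fin 2 → MvPowerSeries (Fin 2) F) :
    Ideal (MvPowerSeries (Fin 2) F) :=
  Ideal.span {X 0 * g 0, X 1 * g 0, X 0 * g 1, X 1 * g 1}

lemma exists_of_mem_mIdeal (g : Fin 2 → MvPowerSeries (Fin 2) F) {z : MvPowerSeries (Fin 2) F}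
    (hz : z ∈ mIdeal g) : ∃ α β : MvPowerSeries (Fin 2) F, constantCoeff α = 0 ∧
      constantCoeff β = 0 ∧ z = α * g 0 + β * g 1 := by
  rw [mIdeal] at hz
  induction hz using Submodule.span_induction with
  | mem z hz =>
    rcases hz with rfl | rfl | rfl | rfl
    · exact ⟨X 0, 0, by simp, by simp, by ring⟩
    · exact ⟨X 1, 0, by simp, by simp, by ring⟩
    · exact ⟨0, X 0, by simp, by simp, by ring⟩
    · exact ⟨0, X 1, by simp, by simp, by ring⟩
  | zero => exact ⟨0, 0, by simp, by simp, by ring⟩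
  | add z w _ _ hz hw =>
    obtain ⟨α, β, h1, h2, rfl⟩ := hz
    obtain ⟨α', β', h1', h2', rfl⟩ := hw
    exact ⟨α + α', β + β', by rw [map_add, h1, h1', add_zero], by rw [map_add, h2, h2', add_zero],
      by ring⟩
  | smul r z _ hz =>
    obtain ⟨α, β, h1, h2, rfl⟩ := hz
    exact ⟨r * α, r * β, by rw [map_mul, h1, mul_zero], by rw [map_mul, h2, mul_zero], by
      rw [smul_eq_mul]
      ring⟩

/-- A criterion for contact equivalence: if `φ(f) = c · g` modulo `m (g_1, g_2)` with an
invertible constant matrix `c`, then `f` and `g` are contact equivalent. -/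
lemma contactEquiv_of (f g : Fin 2 → MvPowerSeries (Fin 2) F)
    (φ : MvPowerSeries (Fin 2) F ≃ₐ[F] MvPowerSeries (Fin 2) F)
    (c00 c01 c10 c11 : F) (hc : c00 * c11 - c01 * c10 ≠ 0)
    (h0 : φ (f 0) - (C c00 * g 0 + C c01 * g 1) ∈ mIdeal g)
    (h1 : φ (f 1) - (C c10 * g 0 + C c11 * g 1) ∈ mIdeal g) : ContactEquiv f g := by
  obtain ⟨α, β, hα, hβ, e0⟩ := exists_of_mem_mIdeal g h0
  obtain ⟨γ, δ, hγ, hδ, e1⟩ := exists_of_mem_mIdeal g h1
  let M : Matrix (Fin 2) (Fin 2) (MvPowerSeries (Fin 2) F) :=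
    !![C c00 + α, C c01 + β; C c10 + γ, C c11 + δ]
  have hM : (fun i => φ (f i)) = M.mulVec g := by
    funext i
    fin_cases i
    · show φ (f 0) = M.mulVec g 0
      have : M.mulVec g 0 = (C c00 + α) * g 0 + (C c01 + β) * g 1 := by
        simp [M, Matrix.mulVec, dotProduct, Fin.sum_univ_two]
      rw [this]
      linear_combination e0
    · show φ (f 1) = M.mulVec g 1
      have : M.mulVec g 1 = (C c10 + γ) * g 0 + (C c11 + δ) * g 1 := by
        simp [M, Matrix.mulVec, dotProduct, Fin.sum_univ_two]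
      rw [this]
      linear_combination e1
  have hdet : IsUnit M.det := by
    rw [Matrix.det_fin_two_of, isUnit_iff_constantCoeff]
    simp only [map_sub, map_mul, map_add, hα, hβ, hγ, hδ, constantCoeff_C, add_zero]
    exact isUnit_iff_ne_zero.2 hc
  have hMu : IsUnit M := (Matrix.isUnit_iff_isUnit_det M).2 hdet
  obtain ⟨V, hV⟩ := hMu
  refine ⟨V⁻¹, φ, ?_⟩
  rw [hM, ← hV]
  have : ((V⁻¹ : GL (Fin 2) (MvPowerSeries (Fin 2) F)) :
      Matrix (Fin 2) (Fin 2) (MvPowerSeries (Fin 2) F)).mulVec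
      ((V : Matrix (Fin 2) (Fin 2) (MvPowerSeries (Fin 2) F)).mulVec g) = g := by
    rw [Matrix.mulVec_mulVec, Units.inv_mul, Matrix.one_mulVec]
  exact this.symm

end Pool.Agent.Q38.ContactPlane
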