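import Pool.Agent.Q256.UG.Stm

/-!
# Project UG (helper256), job LIG: lattice points on a line with small values
(the method is that of `Pool.Agent.Q261.UI.LIN`)
-/

set_option autoImplicit false

namespace Pool.Agent.Q38.UGL

open Finset MvPolynomial
open Pool.Agent.Q256.UG (ld)

/-- the point `P + t w` with an indeterminate `t` -/
noncomputable def ln (P w : Fin 2 → ℤ) (i : Fin 2) : Polynomial ℤ :=
  Polynomial.C (P i) + Polynomial.C (w i) * Polynomial.X

theorem ln_deg (P w : Fin 2 → ℤ) (i : Fin 2) : (ln P w i).natDegree ≤ 1 := by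
  unfold ln
  refine (Polynomial.natDegree_add_le _ _).trans (max_le (by simp) ?_)
  exact (Polynomial.natDegree_C_mul_le _ _).trans Polynomial.natDegree_X_le

theorem ln_coeff (P w : Fin 2 → ℤ) (i : Fin 2) : (ln P w i).coeff 1 = w i := by
  unfold ln
  rw [Polynomial.coeff_add, Polynomial.coeff_C_mul, Polynomial.coeff_X_one, mul_one,
    Polynomial.coeff_C_of_ne_zero one_ne_zero, zero_add]

theorem pow_deg (P w : Fin 2 → ℤ) (i : Fin 2) (n : ℕ) : (ln P w i ^ n).natDegree ≤ n := by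
  refine (Polynomial.natDegree_pow_le).trans ?_
  calc n * (ln P w i).natDegree ≤ n * 1 := Nat.mul_le_mul_left _ (ln_deg P w i)
    _ = n := mul_one _

theorem pow_coeff (P w : Fin 2 → ℤ) (i : Fin 2) (n : ℕ) : (ln P w i ^ n).coeff n = w i ^ n := by
  have h := Polynomial.coeff_pow_of_natDegree_le (m := n) (ln_deg P w i)
  rw [mul_one, ln_coeff] at h
  exact h

theorem mono_deg (P w : Fin 2 → ℤ) (m : Fin 2 →₀ ℕ) :
    (∏ i, ln P w i ^ m i).natDegree ≤ m 0 + m 1 := by
  rw [Fin.prod_univ_two]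
  exact Polynomial.natDegree_mul_le.trans (Nat.add_le_add (pow_deg _ _ _ _) (pow_deg _ _ _ _))

theorem mono_coeff (P w : Fin 2 → ℤ) (m : Fin 2 →₀ ℕ) :
    (∏ i, ln P w i ^ m i).coeff (m 0 + m 1) = w 0 ^ m 0 * w 1 ^ m 1 := by
  rw [Fin.prod_univ_two,
    Polynomial.coeff_mul_add_eq_of_natDegree_le (pow_deg _ _ _ _) (pow_deg _ _ _ _), pow_coeff, pow_coeff]

theorem degree_eq (m : Fin 2 →₀ ℕ) : (m.sum fun _ e => e) = m 0 + m 1 := by
  rw [Finsupp.sum_fintype _ _ (fun _ => rfl), Fin.sum_univ_two]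

theorem single_add (α : Fin 2 →₀ ℕ) : Finsupp.single 0 (α 0) + Finsupp.single 1 (α 1) = α := by
  ext i
  fin_cases i <;> simp [Finsupp.add_apply, Finsupp.single_apply]

/-- restriction of `F` to the line -/
noncomputable def rs (P w : Fin 2 → ℤ) (F : MvPolynomial (Fin 2) ℤ) : Polynomial ℤ :=
  MvPolynomial.aeval (ln P w) F

theorem rs_eq (P w : Fin 2 → ℤ) (F : MvPolynomial (Fin 2) ℤ) :
    rs P w F = ∑ m ∈ F.support, Polynomial.C (F.coeff m) * ∏ i, ln P w i ^ m i := by
  unfold rs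
  rw [MvPolynomial.aeval_def, MvPolynomial.eval₂_eq']
  rfl

theorem rs_deg (P w : Fin 2 → ℤ) (F : MvPolynomial (Fin 2) ℤ) :
    (rs P w F).natDegree ≤ F.totalDegree := by
  rw [rs_eq]
  refine Polynomial.natDegree_sum_le_of_forall_le _ _ fun m hm => ?_
  refine (Polynomial.natDegree_C_mul_le _ _).trans ((mono_deg P w m).trans ?_)
  rw [← degree_eq]
  exact MvPolynomial.le_totalDegree hm

theorem rs_coeff (P w : Fin 2 → ℤ) {F : MvPolynomial (Fin 2) ℤ} {d : ℕ} (hF : F.totalDegree ≤ d) :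
    (rs P w F).coeff d = ld d F (w 0) (w 1) := by
  rw [rs_eq, Polynomial.finsetSum_coeff]
  have h1 : ∀ m ∈ F.support, (Polynomial.C (F.coeff m) * ∏ i, ln P w i ^ m i).coeff d =
      if m 0 + m 1 = d then F.coeff m * w 0 ^ m 0 * w 1 ^ m 1 else 0 := by
    intro m hm
    rw [Polynomial.coeff_C_mul]
    split_ifs with h
    · rw [← h, mono_coeff]
      ring
    · have h2 : m 0 + m 1 ≤ F.totalDegree := by
        rw [← degree_eq]
        exact MvPolynomial.le_totalDegree hm
      rw [Polynomial.coeff_eq_zero_of_natDegree_lt, mul_zero]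
      have := mono_deg P w m
      omega
  rw [Finset.sum_congr rfl h1, ← Finset.sum_filter]
  unfold ld
  refine Finset.sum_of_injOn (fun α : Fin 2 →₀ ℕ => α 1) ?_ ?_ ?_ ?_
  · intro α hα β hβ h
    simp only [coe_filter, Set.mem_setOf_eq] at hα hβ
    simp only at h
    rw [← single_add α, ← single_add β, h]
    have h1 : α 0 = β 0 := by omega
    rw [h1]
  · intro α hα
    simp only [coe_filter, Set.mem_setOf_eq] at hα
    simp only [coe_range, Set.mem_Iio]
    omega
  · intro i hi hn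
    by_cases h0 : F.coeff (Finsupp.single 0 (d - i) + Finsupp.single 1 i) = 0
    · simp only [h0, zero_mul]
    · exfalso
      rw [mem_range] at hi
      apply hn
      refine ⟨Finsupp.single 0 (d - i) + Finsupp.single 1 i, ?_, ?_⟩
      · simp only [coe_filter, Set.mem_setOf_eq]
        refine ⟨mem_support_iff.2 h0, ?_⟩
        simp [Finsupp.single_apply]
        omega
      · simp [Finsupp.single_apply]
  · intro α hα
    rw [mem_filter] at hα
    have h1 : d - α 1 = α 0 := by omega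
    simp only [h1, single_add]

theorem rs_eval (P w : Fin 2 → ℤ) (F : MvPolynomial (Fin 2) ℤ) (t : ℤ) :
    (rs P w F).eval t = eval (fun i => P i + w i * t) F := by
  rw [rs_eq, Polynomial.eval_finsetSum, MvPolynomial.eval_eq']
  refine sum_congr rfl fun m _ => ?_
  rw [Polynomial.eval_mul, Polynomial.eval_C, Polynomial.eval_prod]
  congr 1
  refine prod_congr rfl fun i _ => ?_
  unfold ln
  simp

theorem ld_scale (d : ℕ) (F : MvPolynomial (Fin 2) ℤ) (g b a : ℤ) :
    ld d F (g * b) (g * a) = g ^ d * ld d F b a := by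
  unfold ld
  rw [Finset.mul_sum]
  refine sum_congr rfl fun i hi => ?_
  have h1 : g ^ d = g ^ (d - i) * g ^ i := by
    rw [← pow_add]
    congr 1
    have := mem_range.1 hi
    omega
  rw [h1, mul_pow, mul_pow]
  ring

/-- **LIG** -/
theorem lig : Pool.Agent.Q256.UI.S_LCK → Pool.Agent.Q256.UG.S_LIG := by
  intro hLCK d hd
  obtain ⟨C, hC, hL⟩ := hLCK d hd
  refine ⟨C, hC, fun F hF B hB S hS hcol hld => ?_⟩
  have hBd : 1 ≤ B ^ ((1 : ℝ) / d) := Real.one_le_rpow hB (by positivity)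
  by_cases hcard : #S ≤ 1
  · have h1 : (#S : ℝ) ≤ 1 := by exact_mod_cast hcard
    calc (#S : ℝ) ≤ 1 * 1 := by linarith
      _ ≤ C * B ^ ((1 : ℝ) / d) := mul_le_mul hC hBd zero_le_one (by linarith)
  push Not at hcard
  obtain ⟨p, hp, q, hq, hpq⟩ := Finset.one_lt_card.1 hcard
  -- the primitive direction
  set g : ℕ := Int.gcd (q.1 - p.1) (q.2 - p.2) with hg
  have hg0 : (g : ℤ) ≠ 0 := by
    intro h
    have h1 : g = 0 := by exact_mod_cast h
    rw [hg, Int.gcd_eq_zero_iff] at h1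
    apply hpq
    apply Prod.ext
    · linarith [h1.1]
    · linarith [h1.2]
  obtain ⟨b, hb⟩ : (g : ℤ) ∣ q.1 - p.1 := Int.gcd_dvd_left _ _
  obtain ⟨a, ha⟩ : (g : ℤ) ∣ q.2 - p.2 := Int.gcd_dvd_right _ _
  set u := Int.gcdA (q.1 - p.1) (q.2 - p.2) with hu
  set v := Int.gcdB (q.1 - p.1) (q.2 - p.2) with hv
  have hbez : b * u + a * v = 1 := by
    have h1 : (g : ℤ) = (q.1 - p.1) * u + (q.2 - p.2) * v := Int.gcd_eq_gcd_ab _ _
    rw [hb, ha] at h1
    have h2 : (g : ℤ) * (b * u + a * v) = g * 1 := by linarith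
    exact mul_left_cancel₀ hg0 h2
  -- the points on the line
  set tt : ℤ × ℤ → ℤ := fun r => u * (r.1 - p.1) + v * (r.2 - p.2) with htt
  have hline : ∀ r ∈ S, r.1 = p.1 + b * tt r ∧ r.2 = p.2 + a * tt r := by
    intro r hr
    have h1 := hcol p hp q hq r hr
    have h2 : (g : ℤ) * (a * (r.1 - p.1)) = g * (b * (r.2 - p.2)) := by
      have e1 : p.2 * (q.1 - r.1) + q.2 * (r.1 - p.1) + r.2 * (p.1 - q.1) =
          (q.2 - p.2) * (r.1 - p.1) - (q.1 - p.1) * (r.2 - p.2) := by ring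
      rw [e1, hb, ha] at h1
      linarith
    have h3 : a * (r.1 - p.1) = b * (r.2 - p.2) := mul_left_cancel₀ hg0 h2
    constructor
    · have : b * tt r = r.1 - p.1 := by
        calc b * tt r = b * u * (r.1 - p.1) + v * (b * (r.2 - p.2)) := by rw [htt]; ring
          _ = (b * u + a * v) * (r.1 - p.1) := by rw [← h3]; ring
          _ = r.1 - p.1 := by rw [hbez, one_mul]
      linarith
    · have : a * tt r = r.2 - p.2 := by
        calc a * tt r = u * (a * (r.1 - p.1)) + a * v * (r.2 - p.2) := by rw [htt]; ring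
          _ = (b * u + a * v) * (r.2 - p.2) := by rw [h3]; ring
          _ = r.2 - p.2 := by rw [hbez, one_mul]
      linarith
  -- the polynomial
  set P : Fin 2 → ℤ := ![p.1, p.2] with hP
  set w : Fin 2 → ℤ := ![b, a] with hw
  set R : Polynomial ℤ := rs P w F with hR
  have hcoeff : R.coeff d = ld d F b a := rs_coeff P w hF
  have hne : R.coeff d ≠ 0 := by
    rw [hcoeff]
    intro h0
    apply hld q hq p hp (Ne.symm hpq)
    rw [hb, ha, ld_scale, h0, mul_zero]
  have hdeg : R.natDegree = d :=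
    le_antisymm ((rs_deg P w _).trans hF) (Polynomial.le_natDegree_of_ne_zero hne)
  obtain ⟨hfin, hcard'⟩ := hL R hdeg B hB
  have hmaps : ∀ r ∈ S, tt r ∈ {t : ℤ | |((R.eval t : ℤ) : ℝ)| ≤ B} := by
    intro r hr
    obtain ⟨h1, h2⟩ := hline r hr
    have h3 : R.eval (tt r) = eval ![r.1, r.2] F := by
      rw [hR, rs_eval]
      congr 2
      funext i
      fin_cases i
      · simpa [hP, hw] using h1.symm
      · simpa [hP, hw] using h2.symm
    show |((R.eval (tt r) : ℤ) : ℝ)| ≤ B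
    rw [h3]
    exact hS r hr
  have hinj : ∀ r ∈ S, ∀ s ∈ S, tt r = tt s → r = s := by
    intro r hr s hs h
    obtain ⟨h1, h2⟩ := hline r hr
    obtain ⟨h3, h4⟩ := hline s hs
    apply Prod.ext
    · rw [h1, h3, h]
    · rw [h2, h4, h]
  have h1 : #S ≤ {t : ℤ | |((R.eval t : ℤ) : ℝ)| ≤ B}.ncard := by
    rw [← Set.ncard_coe_finset S]
    exact Set.ncard_le_ncard_of_injOn tt (fun r hr => hmaps r hr) (fun r hr s hs h => hinj r hr s hs h) hfin
  calc (#S : ℝ) ≤ ({t : ℤ | |((R.eval t : ℤ) : ℝ)| ≤ B}.ncard : ℝ) := by exact_mod_cast h1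
    _ ≤ _ := hcard'

end Pool.Agent.Q38.UGL
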